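import Pool.Agent.Helper5.MD.C4Both
import Pool.Agent.Helper5.MD.CritDefs

/-!
# MP-P9 : the leading minors of `MAT`

For `3 n < κ` the leading block is `M i j = (2^(2i-2w) LL i w) (PS w) (2^(2j-2w) UU w j)` summed over `w` (`LL_PP_UU`, `PS w = 2^(4w-1) PP w`), a product of a lower unitriangular,
a diagonal and an upper unitriangular matrix.
-/

open scoped Nat

namespace Pool.Agent.Helper5.MD

namespace P9

lemma sum_shift (n : ℕ) (F : ℕ → ℚ) :
    ∑ c ∈ Finset.range n, F (c + 1) = ∑ c ∈ Finset.Icc 1 n, F c := by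
  induction n with
  | zero => simp
  | succ n ih => rw [Finset.sum_range_succ, ih, Finset.sum_Icc_succ_top (by omega)]

lemma prod_shift (n : ℕ) (F : ℕ → ℚ) :
    ∏ c ∈ Finset.range n, F (c + 1) = ∏ c ∈ Finset.Icc 1 n, F c := by
  induction n with
  | zero => simp
  | succ n ih => rw [Finset.prod_range_succ, ih, Finset.prod_Icc_succ_top (by omega)]

lemma LL_zero (ε : Bool) (κ : ℚ) (i w : ℕ) (h : i < w) : LL ε κ i w = 0 := by
  unfold LL lam
  cases ε <;> simp [not_le.mpr h]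

lemma UU_zero (ε : Bool) (κ : ℚ) (w j : ℕ) (h : j < w) : UU ε κ w j = 0 := by
  unfold UU mu
  cases ε <;> simp [not_le.mpr h]

lemma ne_a {κ w : ℕ} (h : 3 * w < κ) : ((κ : ℚ) - 3 * w) ≠ 0 := by
  have : (3 : ℚ) * w < κ := by exact_mod_cast h
  linarith

lemma ne_b {κ w : ℕ} (h : 3 * w < κ) : (2 * (κ : ℚ) - 3 * w) ≠ 0 := by
  have h1 : (3 : ℚ) * w < κ := by exact_mod_cast h
  have h2 : (0 : ℚ) ≤ κ := by positivity
  linarith

lemma LL_diag (ε : Bool) (κ w : ℕ) (h : 3 * w < κ) : LL ε κ w w = 1 := by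
  unfold LL lam
  cases ε
  · simp
  · simp [div_self (ne_a h)]

lemma UU_diag (ε : Bool) (κ w : ℕ) (h : 3 * w < κ) : UU ε κ w w = 1 := by
  unfold UU mu
  cases ε
  · simp [div_self (ne_b h)]
  · simp [div_self (ne_b h)]

end P9

theorem det_leading (ε : Bool) (κ n : ℕ) (h3 : 3 * n < κ) (hn : n ≤ κ - 1) :
    ((MAT ε κ).submatrix (Fin.castLE hn) (Fin.castLE hn)).det =
      ∏ w ∈ Finset.Icc 1 n, PS ε κ w := by
  let A : Matrix (Fin n) (Fin n) ℚ := Matrix.of fun i w =>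
    2 ^ (2 * ((i.val + 1 : ℕ) : ℤ) - 2 * ((w.val + 1 : ℕ) : ℤ)) * LL ε κ (i.val + 1) (w.val + 1)
  let D : Fin n → ℚ := fun w => PS ε κ (w.val + 1)
  let B : Matrix (Fin n) (Fin n) ℚ := Matrix.of fun w j =>
    2 ^ (2 * ((j.val + 1 : ℕ) : ℤ) - 2 * ((w.val + 1 : ℕ) : ℤ)) * UU ε κ (w.val + 1) (j.val + 1)
  have hprod : (MAT ε κ).submatrix (Fin.castLE hn) (Fin.castLE hn) =
      A * Matrix.diagonal D * B := by
    ext i j
    rw [Matrix.mul_apply]
    have h1 := LL_PP_UU ε κ (i.val + 1) (j.val + 1) (by omega) (by omega) (by omega) (by omega)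
    have h2 : ∑ w ∈ Finset.Icc 1 (min (i.val + 1) (j.val + 1)),
        LL ε κ (i.val + 1) w * PP ε κ w * UU ε κ w (j.val + 1) =
        ∑ w ∈ Finset.Icc 1 n, LL ε κ (i.val + 1) w * PP ε κ w * UU ε κ w (j.val + 1) := by
      refine Finset.sum_subset (Finset.Icc_subset_Icc le_rfl (by omega)) ?_
      intro w hw hw'
      simp only [Finset.mem_Icc, not_and, not_le] at hw hw'
      have := hw' hw.1
      rcases Nat.lt_or_ge (i.val + 1) w with h | h
      · rw [P9.LL_zero _ _ _ _ h]; ring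
      · rw [P9.UU_zero _ _ _ _ (by omega)]; ring
    simp only [Matrix.submatrix_apply, MAT, Matrix.of_apply, Fin.val_castLE, MM]
    rw [← h1, h2, ← P9.sum_shift, Finset.mul_sum,
      ← Fin.sum_univ_eq_sum_range (fun w => (2 : ℚ) ^ (2 * ((i.val + 1 : ℕ) : ℤ) +
        2 * ((j.val + 1 : ℕ) : ℤ) - 1) *
        (LL ε κ (i.val + 1) (w + 1) * PP ε κ (w + 1) * UU ε κ (w + 1) (j.val + 1))) n]
    refine Finset.sum_congr rfl fun w _ => ?_
    rw [Matrix.mul_diagonal]
    simp only [A, D, B, Matrix.of_apply, PS]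
    have e : (2 : ℚ) ^ (2 * ((i.val + 1 : ℕ) : ℤ) + 2 * ((j.val + 1 : ℕ) : ℤ) - 1) =
        2 ^ (2 * ((i.val + 1 : ℕ) : ℤ) - 2 * ((w.val + 1 : ℕ) : ℤ)) *
        2 ^ (4 * ((w.val + 1 : ℕ) : ℤ) - 1) *
        2 ^ (2 * ((j.val + 1 : ℕ) : ℤ) - 2 * ((w.val + 1 : ℕ) : ℤ)) := by
      rw [← zpow_add₀ (by norm_num), ← zpow_add₀ (by norm_num)]
      congr 1
      ring
    rw [e]
    ring
  have hA : A.det = 1 := by
    rw [Matrix.det_of_lowerTriangular A]
    · refine Finset.prod_eq_one fun w _ => ?_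
      simp only [A, Matrix.of_apply]
      rw [P9.LL_diag _ _ _ (by omega)]
      simp
    · intro i j hij
      simp only [A, Matrix.of_apply]
      have hij' : i < j := hij
      rw [P9.LL_zero _ _ _ _ (by omega)]
      ring
  have hB : B.det = 1 := by
    rw [Matrix.det_of_upperTriangular (M := B)]
    · refine Finset.prod_eq_one fun w _ => ?_
      simp only [B, Matrix.of_apply]
      rw [P9.UU_diag _ _ _ (by omega)]
      simp
    · intro i j hij
      simp only [B, Matrix.of_apply]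
      have hij' : j < i := hij
      rw [P9.UU_zero _ _ _ _ (by omega)]
      ring
  rw [hprod, Matrix.det_mul, Matrix.det_mul, hA, hB, Matrix.det_diagonal, one_mul, mul_one,
    ← P9.prod_shift]
  exact Fin.prod_univ_eq_prod_range (fun w => PS ε κ (w + 1)) n

end Pool.Agent.Helper5.MD
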