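import Pool.Agent.Helper5.MD2.P8Pow
import Pool.Agent.Helper5.MD2.P9Det
import Pool.Agent.Helper5.MD2.P10Prod

/-!
# MP-P11 : the valuations of the first eigenvalues for `κ = 2^m`

Let `d = 2^m / 3`, `s_n = v2 (PS n)` strictly increasing with steps `≥ 2`, `R` the roots of the characteristic polynomial of `MAT`.
`A_n = {α ∈ R : v (2^(s_n + 1)) < v α}` has `n` elements (`card_roots_of_vertex`, `crit_pow`) and `v (∏ A_n) = v 2^(s_1 + ... + s_n)` (`prod_roots_of_crit`, `det_leading`).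
The multisets are nested, so `A_n = A_(n-1) + {α_n}` and `v α_n = v (2^(s_n))`.
-/

open scoped Nat

namespace Pool.Agent.Helper5.MD

/-- the number and the product of the large eigenvalues -/
private theorem p11_facts {Γ₀ : Type*} [LinearOrderedCommGroupWithZero Γ₀]
    (v : Valuation ℂ Γ₀) (hv : v 2 < 1) (ε : Bool) (m : ℕ) (hm : 10 ≤ m) (n : ℕ) (hn : 1 ≤ n)
    (h3 : 3 * n < 2 ^ m) :
    Multiset.card ((((MAT ε (2 ^ m)).map (algebraMap ℚ ℂ)).charpoly.roots).filter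
      (fun α => v ((2 : ℂ) ^ (padicValRat 2 (PS ε ((2 ^ m : ℕ) : ℚ) n) + 1)) < v α)) = n ∧
    v (((((MAT ε (2 ^ m)).map (algebraMap ℚ ℂ)).charpoly.roots).filter
      (fun α => v ((2 : ℂ) ^ (padicValRat 2 (PS ε ((2 ^ m : ℕ) : ℚ) n) + 1)) < v α)).prod) =
      v ((∏ w ∈ Finset.Icc 1 n, PS ε ((2 ^ m : ℕ) : ℚ) w : ℚ) : ℂ) := by
  have hN : n ≤ 2 ^ m - 1 := by omega
  have hc := crit_pow ε m n hm hn h3
  refine ⟨card_roots_of_vertex v hv _ n _ _ (vertex_of_crit _ _ _ _ hc), ?_⟩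
  rw [prod_roots_of_crit v hv _ n _ _ hc hN, det_leading ε (2 ^ m) n h3 hN]

theorem eigenvalues_pow {Γ₀ : Type*} [LinearOrderedCommGroupWithZero Γ₀]
    (v : Valuation ℂ Γ₀) (hv : v 2 < 1) (ε : Bool) (m : ℕ) (hm : 10 ≤ m) (n : ℕ) (hn : 1 ≤ n)
    (h3 : 3 * n < 2 ^ m) :
    ∃ α : ℂ, ((MAT ε (2 ^ m)).map (algebraMap ℚ ℂ)).charpoly.IsRoot α ∧
      v α = v ((2 : ℂ) ^ padicValRat 2 (PS ε ((2 ^ m : ℕ) : ℚ) n)) := by
  set R := ((MAT ε (2 ^ m)).map (algebraMap ℚ ℂ)).charpoly.roots with hR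
  set sl : ℕ → ℤ := fun n => padicValRat 2 (PS ε ((2 ^ m : ℕ) : ℚ) n) with hsl
  set A : ℕ → Multiset ℂ := fun n => R.filter (fun α => v ((2 : ℂ) ^ (sl n + 1)) < v α) with hA
  have h20 : v (2 : ℂ) ≠ 0 := by
    rw [Ne, v.zero_iff]; norm_num
  obtain ⟨c1, p1⟩ := p11_facts v hv ε m hm n hn h3
  -- the smaller multiset
  obtain ⟨A', hle, c2, p2⟩ : ∃ A' : Multiset ℂ, A' ≤ A n ∧ Multiset.card A' = n - 1 ∧
      v A'.prod = v ((∏ w ∈ Finset.Icc 1 (n - 1), PS ε ((2 ^ m : ℕ) : ℚ) w : ℚ) : ℂ) := by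
    rcases Nat.eq_or_lt_of_le hn with h1 | h1
    · subst h1
      exact ⟨0, Multiset.zero_le _, rfl, by simp⟩
    · obtain ⟨c2, p2⟩ := p11_facts v hv ε m hm (n - 1) (by omega) (by omega)
      refine ⟨A (n - 1), ?_, c2, p2⟩
      have h4 := slope_pow_succ ε m (n - 1) (by omega) (by omega)
      rw [Nat.sub_add_cancel hn] at h4
      apply Multiset.monotone_filter_right
      intro α hα
      refine lt_of_le_of_lt ?_ hα
      rw [map_zpow₀, map_zpow₀]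
      refine zpow_le_zpow_right_of_le_one₀ (zero_lt_iff.2 h20) hv.le ?_
      show sl (n - 1) + 1 ≤ sl n + 1
      have h5 : sl (n - 1) + 2 ≤ sl n := h4
      omega
  obtain ⟨B, hB⟩ := Multiset.le_iff_exists_add.1 hle
  have hBc : Multiset.card B = 1 := by
    have h5 := congrArg Multiset.card hB
    rw [Multiset.card_add, c2] at h5
    have h6 : Multiset.card (A n) = n := c1
    omega
  obtain ⟨α, rfl⟩ := Multiset.card_eq_one.1 hBc
  have hαA : α ∈ A n := by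
    rw [hB]
    simp
  have hαR : α ∈ R := (Multiset.mem_filter.1 hαA).1
  refine ⟨α, Polynomial.isRoot_of_mem_roots hαR, ?_⟩
  have hPS : ∀ w, 1 ≤ w → w ≤ n → PS ε ((2 ^ m : ℕ) : ℚ) w ≠ 0 := fun w h1 h2 =>
    PS_ne_zero ε (2 ^ m) w h1 (by omega)
  have hprod : (∏ w ∈ Finset.Icc 1 n, PS ε ((2 ^ m : ℕ) : ℚ) w : ℚ) =
      (∏ w ∈ Finset.Icc 1 (n - 1), PS ε ((2 ^ m : ℕ) : ℚ) w) * PS ε ((2 ^ m : ℕ) : ℚ) n := by
    have h7 := Finset.prod_Icc_succ_top (a := 1) (b := n - 1) (by omega)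
      (fun w => PS ε ((2 ^ m : ℕ) : ℚ) w)
    rw [Nat.sub_add_cancel hn] at h7
    exact h7
  have hne : ((∏ w ∈ Finset.Icc 1 (n - 1), PS ε ((2 ^ m : ℕ) : ℚ) w : ℚ) : ℂ) ≠ 0 := by
    rw [Ne, Rat.cast_eq_zero, Finset.prod_eq_zero_iff]
    rintro ⟨w, hw, h0⟩
    rw [Finset.mem_Icc] at hw
    exact hPS w hw.1 (by omega) h0
  have p3 : v (A n).prod = v ((∏ w ∈ Finset.Icc 1 n, PS ε ((2 ^ m : ℕ) : ℚ) w : ℚ) : ℂ) := p1
  rw [hB, Multiset.prod_add, Multiset.prod_singleton, v.map_mul, p2, hprod, Rat.cast_mul,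
    v.map_mul] at p3
  have h8 := mul_left_cancel₀ (by rwa [Ne, v.zero_iff]) p3
  rw [h8, B2.v_rat_aux v hv _ (hPS n hn le_rfl), map_zpow₀]

end Pool.Agent.Helper5.MD
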