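import Pool.Agent.Helper5.MD2.P11Vals
import Pool.Agent.Helper5.MD.MF.F2Roots

/-!
# MP-P12 : the roots of the Hecke polynomial in weights `2^a` and `2^a + 2`

Let `κ = 2^m`, weight `2 M`, `M = 2 κ + ε`, `d = κ / 3 = dim S` (`dimension_level_one`, `ModularForm.rank_eq_one_add_rank_cuspForm` or `CuspForm.discriminantEquiv`; `κ ≡ 1, 2 mod 3`).
For `1 ≤ n ≤ d` take `α_n` of `eigenvalues_pow`, `s_n = v2 (PS n) ≤ 4 n + 5 log2 κ + 8 ≤ 2 κ - 2` (`PS_upper`), so `α_n ≠ 0`, `α_n^2 ≠ 2^(2M-2)`,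
`μ_n = α_n + 2^(2M-1)/α_n` is an eigenvalue of `T_2` (`eigenvalue_of_root`) with `v μ_n = v α_n = v (2^(s_n))` (see the proof of `card_eigenvalues` in `MF/F1Main.lean`).
The `v μ_n` are distinct, so the `μ_n` are distinct, `d = dim` of them: they are all the roots, each simple.
`s_n = 1 + ε + 2 (v2 ((3n)!) - v2 (n!))` by `slope_pow`.
-/

open UpperHalfPlane hiding I
open ModularForm MatrixGroups Filter Topology
open scoped Manifold Real Nat

namespace Pool.Agent.Helper5.MD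

namespace P12

theorem not_three_dvd (m : ℕ) : ¬ 3 ∣ 2 ^ m := by
  intro h
  have h1 := Nat.prime_three.dvd_of_dvd_pow h
  omega

theorem lt_of_lt_div {m n : ℕ} (h : n < 2 ^ m / 3) : 3 * (n + 1) < 2 ^ m := by
  have h1 := not_three_dvd m
  omega

theorem rank_cusp (k : ℕ) (hk : 3 ≤ k) (hk2 : Even k) (h : ¬ k % 12 = 2) :
    Module.finrank ℂ (CuspForm 𝒮ℒ (k : ℤ)) = k / 12 := by
  have := finiteDimensional_cuspForm (k : ℤ)
  have h1 := ModularForm.rank_eq_one_add_rank_cuspForm hk hk2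
  rw [ModularForm.dimension_level_one k hk2, if_neg (by intro h2; exact h h2),
    ← Module.finrank_eq_rank] at h1
  have h2 : k / 12 + 1 = 1 + Module.finrank ℂ (CuspForm 𝒮ℒ (k : ℤ)) := by exact_mod_cast h1
  omega

theorem zpow_lt {Γ₀ : Type*} [LinearOrderedCommGroupWithZero Γ₀]
    (v : Valuation ℂ Γ₀) (hv : v 2 < 1) {a b : ℤ} (h : a < b) :
    v ((2 : ℂ) ^ b) < v ((2 : ℂ) ^ a) := by
  rw [map_zpow₀, map_zpow₀]
  have h0 : 0 < v 2 := by
    rw [zero_lt_iff]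
    exact (Valuation.ne_zero_iff v).2 two_ne_zero
  exact zpow_lt_zpow_right_of_lt_one₀ h0 hv h

theorem slope_lt (ε : Bool) (m : ℕ) (hm : 10 ≤ m) (n : ℕ) (hn : 1 ≤ n) (h3 : 3 * n < 2 ^ m) :
    padicValRat 2 (PS ε ((2 ^ m : ℕ) : ℚ) n) < 2 * ((2 ^ m : ℕ) : ℤ) - 1 := by
  have h1 := PS_upper ε (2 ^ m) n hn h3
  rw [Nat.log_pow (by norm_num)] at h1
  have h2 : 3 * (5 * m + 10) ≤ 2 * 2 ^ m := by
    clear h1 h3
    induction m, hm using Nat.le_induction with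
    | base => norm_num
    | succ k hk ih => rw [pow_succ]; omega
  have h3' : 3 * (n : ℤ) < ((2 ^ m : ℕ) : ℤ) := by exact_mod_cast h3
  have h2' : 3 * (5 * (m : ℤ) + 10) ≤ 2 * ((2 ^ m : ℕ) : ℤ) := by exact_mod_cast h2
  omega

theorem slope_strict (ε : Bool) (m : ℕ) {a b : ℕ} (hab : a < b) (hb : b < 2 ^ m / 3) :
    padicValRat 2 (PS ε ((2 ^ m : ℕ) : ℚ) (a + 1)) <
      padicValRat 2 (PS ε ((2 ^ m : ℕ) : ℚ) (b + 1)) := by
  induction b, hab using Nat.le_induction with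
  | base =>
    have := slope_pow_succ ε m (a + 1) (by omega) (lt_of_lt_div hb)
    change _ < padicValRat 2 (PS ε ((2 ^ m : ℕ) : ℚ) (a + 1 + 1))
    omega
  | succ c hc ih =>
    have h1 := ih (by omega)
    have h2 := slope_pow_succ ε m (c + 1) (by omega) (lt_of_lt_div hb)
    omega

theorem slope_eq (ε : Bool) (m n : ℕ) (hn : 1 ≤ n) (h3 : 3 * n < 2 ^ m) :
    padicValRat 2 (PS ε ((2 ^ m : ℕ) : ℚ) n) =
      ((1 + (if ε then 1 else 0) + 2 * (vf (3 * n) - vf n) : ℕ) : ℤ) := by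
  have h1 := slope_pow ε m n hn h3
  have h2 : vf n ≤ vf (3 * n) := by
    unfold vf
    exact (padicValNat_dvd_iff_le (hp := ⟨Nat.prime_two⟩) (Nat.factorial_ne_zero _)).1
      (dvd_trans pow_padicValNat_dvd (Nat.factorial_dvd_factorial (by omega)))
  cases ε <;> simp at h1 ⊢ <;> omega

end P12

theorem finrank_pow (ε : Bool) (m : ℕ) (hm : 2 ≤ m) :
    Module.finrank ℂ (CuspForm 𝒮ℒ (2 * (2 * ((2 ^ m : ℕ) : ℤ) + (if ε then 1 else 0)))) =
      2 ^ m / 3 := by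
  have h4 : 4 ≤ 2 ^ m := by
    calc 4 = 2 ^ 2 := by norm_num
      _ ≤ 2 ^ m := Nat.pow_le_pow_right (by norm_num) hm
  have h3 := P12.not_three_dvd m
  have key : ∀ k : ℕ, k = 4 * 2 ^ m + (if ε then 2 else 0) →
      Module.finrank ℂ (CuspForm 𝒮ℒ (k : ℤ)) = 2 ^ m / 3 := by
    intro k hk
    have hk' : k = 4 * 2 ^ m ∨ k = 4 * 2 ^ m + 2 := by
      cases ε
      · left; simpa using hk
      · right; simpa using hk
    rw [P12.rank_cusp k (by omega) (by rw [Nat.even_iff]; omega) (by omega)]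
    omega
  have h := key _ rfl
  have e : ((4 * 2 ^ m + (if ε then 2 else 0) : ℕ) : ℤ) =
      2 * (2 * ((2 ^ m : ℕ) : ℤ) + (if ε then 1 else 0)) := by
    cases ε <;> simp <;> ring
  rw [e] at h
  exact h

namespace P12

theorem main (ε : Bool) (m : ℕ) (hm : 10 ≤ m) {Γ₀ : Type*}
    [LinearOrderedCommGroupWithZero Γ₀] (v : Valuation ℂ Γ₀) (hv : v 2 < 1) :
    ∃ μ : ℕ → ℂ, (T2 (2 * ((2 ^ m : ℕ) : ℤ) + (if ε then 1 else 0))).charpoly.roots =
        (Multiset.range (2 ^ m / 3)).map μ ∧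
      (∀ n < 2 ^ m / 3, v (μ n) = v ((2 : ℂ) ^
        (1 + (if ε then 1 else 0) + 2 * (vf (3 * (n + 1)) - vf (n + 1))))) ∧
      ((Multiset.range (2 ^ m / 3)).map μ).Nodup := by
  have hex : ∀ n : ℕ, ∃ α : ℂ, n < 2 ^ m / 3 →
      ((MAT ε (2 ^ m)).map (algebraMap ℚ ℂ)).charpoly.IsRoot α ∧
      v α = v ((2 : ℂ) ^ padicValRat 2 (PS ε ((2 ^ m : ℕ) : ℚ) (n + 1))) := by
    intro n
    by_cases hn : n < 2 ^ m / 3
    · obtain ⟨α, h1, h2⟩ := eigenvalues_pow v hv ε m hm (n + 1) (by omega) (lt_of_lt_div hn)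
      exact ⟨α, fun _ => ⟨h1, h2⟩⟩
    · exact ⟨0, fun h => absurd h hn⟩
  choose α hα using hex
  set M : ℤ := 2 * ((2 ^ m : ℕ) : ℤ) + (if ε then 1 else 0) with hM
  have hM1 : 2 * ((2 ^ m : ℕ) : ℤ) ≤ M := by
    rw [hM]
    split_ifs <;> omega
  set s : ℕ → ℤ := fun n => padicValRat 2 (PS ε ((2 ^ m : ℕ) : ℚ) (n + 1)) with hs
  have hsl : ∀ n < 2 ^ m / 3, s n < M - 1 := by
    intro n hn
    have := slope_lt ε m hm (n + 1) (by omega) (lt_of_lt_div hn)
    simp only [hs]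
    omega
  have hne : ∀ n < 2 ^ m / 3, α n ≠ 0 := by
    intro n hn h0
    have h1 := (hα n hn).2
    rw [h0, map_zero] at h1
    exact (Valuation.ne_zero_iff v).2 (zpow_ne_zero _ two_ne_zero) h1.symm
  set μ : ℕ → ℂ := fun n => α n + 2 ^ (2 * M - 1) / α n with hμ
  have hval : ∀ n < 2 ^ m / 3, v (μ n) = v ((2 : ℂ) ^ s n) := by
    intro n hn
    have h0 := hne n hn
    have hv0 : v (α n) ≠ 0 := (Valuation.ne_zero_iff v).2 h0
    rw [← (hα n hn).2]
    apply Valuation.map_add_eq_of_lt_left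
    rw [map_div₀, div_lt_iff₀ (zero_lt_iff.2 hv0), (hα n hn).2, ← map_mul,
      ← zpow_add₀ two_ne_zero]
    exact zpow_lt v hv (by have := hsl n hn; simp only [hs] at this; omega)
  have hsq : ∀ n < 2 ^ m / 3, α n ^ 2 ≠ 2 ^ (2 * M - 2) := by
    intro n hn h
    have h1 : v (α n ^ 2) = v ((2 : ℂ) ^ (s n + s n)) := by
      rw [map_pow, (hα n hn).2, sq, ← map_mul, ← zpow_add₀ two_ne_zero]
    rw [h] at h1
    have h2 : v ((2 : ℂ) ^ (2 * M - 2)) < v ((2 : ℂ) ^ (s n + s n)) :=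
      zpow_lt v hv (by have := hsl n hn; omega)
    exact absurd h1 h2.ne
  have hinj : ∀ a < 2 ^ m / 3, ∀ b < 2 ^ m / 3, μ a = μ b → a = b := by
    intro a ha b hb hab
    have h1 : v ((2 : ℂ) ^ s a) = v ((2 : ℂ) ^ s b) := by rw [← hval a ha, ← hval b hb, hab]
    rcases lt_trichotomy a b with h | h | h
    · exact absurd h1 (zpow_lt v hv (slope_strict ε m h hb)).ne'
    · exact h
    · exact absurd h1 (zpow_lt v hv (slope_strict ε m h ha)).ne
  have hnd : ((Multiset.range (2 ^ m / 3)).map μ).Nodup := by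
    apply Multiset.Nodup.map_on _ (Multiset.nodup_range _)
    intro a ha b hb hab
    exact hinj a (Multiset.mem_range.1 ha) b (Multiset.mem_range.1 hb) hab
  refine ⟨μ, ?_, ?_, hnd⟩
  · symm
    apply Multiset.eq_of_le_of_card_le
    · rw [Multiset.le_iff_subset hnd]
      intro x hx
      rw [Multiset.mem_map] at hx
      obtain ⟨n, hn, rfl⟩ := hx
      have hn' := Multiset.mem_range.1 hn
      rw [Polynomial.mem_roots (LinearMap.charpoly_monic _).ne_zero]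
      exact (Module.End.hasEigenvalue_iff_isRoot_charpoly _ _).1
        (eigenvalue_of_root ε (2 ^ m) (α n) (hα n hn').1 (hne n hn') (hsq n hn'))
    · refine (Polynomial.card_roots' _).trans ?_
      rw [LinearMap.charpoly_natDegree, Multiset.card_map, Multiset.card_range]
      exact (finrank_pow ε m (by omega)).le
  · intro n hn
    rw [hval n hn]
    simp only [hs]
    rw [slope_eq ε m (n + 1) (by omega) (lt_of_lt_div hn), zpow_natCast]

end P12

theorem roots_pow (ε : Bool) (m : ℕ) (hm : 10 ≤ m) {Γ₀ : Type*}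
    [LinearOrderedCommGroupWithZero Γ₀] (v : Valuation ℂ Γ₀) (hv : v 2 < 1) :
    ((T2 (2 * ((2 ^ m : ℕ) : ℤ) + (if ε then 1 else 0))).charpoly.roots.map v) =
      (Multiset.range (2 ^ m / 3)).map (fun n => v ((2 : ℂ) ^
        (1 + (if ε then 1 else 0) + 2 * (vf (3 * (n + 1)) - vf (n + 1))))) := by
  obtain ⟨μ, h1, h2, -⟩ := P12.main ε m hm v hv
  rw [h1, Multiset.map_map]
  apply Multiset.map_congr rfl
  intro n hn
  exact h2 n (Multiset.mem_range.1 hn)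

theorem nodup_pow (ε : Bool) (m : ℕ) (hm : 10 ≤ m) :
    (T2 (2 * ((2 ^ m : ℕ) : ℤ) + (if ε then 1 else 0))).charpoly.roots.Nodup := by
  obtain ⟨A, hA⟩ := exists_valuation_two
  obtain ⟨μ, h1, -, h3⟩ := P12.main ε m hm A.valuation hA
  rw [h1]
  exact h3

end Pool.Agent.Helper5.MD
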