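import Pool.Agent.Helper5.MD.VGBasic

/-!
# MP-P13 : an operator with simple spectrum generates its commutant

If the characteristic polynomial of `T` has no multiple root then `T` is diagonalizable with one dimensional eigenspaces; every `A` commuting with `T` preserves them, so it is
a polynomial in `T` by Lagrange interpolation.
-/

open scoped Nat

namespace Pool.Agent.Helper5.MD

theorem mem_adjoin_of_commute {V : Type*} [AddCommGroup V] [Module ℂ V] [FiniteDimensional ℂ V]
    (T A : V →ₗ[ℂ] V) (hT : T.charpoly.roots.Nodup) (hA : A * T = T * A) :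
    A ∈ Algebra.adjoin ℂ {T} := by
  classical
  set s := T.charpoly.roots.toFinset with hs
  have hmon : T.charpoly.Monic := LinearMap.charpoly_monic T
  have hcard : Fintype.card s = Module.finrank ℂ V := by
    rw [Fintype.card_coe, hs, Multiset.toFinset_card_of_nodup hT,
      ← (Polynomial.splits_iff_card_roots.1 (IsAlgClosed.splits T.charpoly)).symm,
      LinearMap.charpoly_natDegree]
  have hev : ∀ μ : s, Module.End.HasEigenvalue T (μ : ℂ) := by
    intro μ
    rw [Module.End.hasEigenvalue_iff_isRoot_charpoly]
    have h : (μ : ℂ) ∈ T.charpoly.roots.toFinset := μ.2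
    rw [Multiset.mem_toFinset, Polynomial.mem_roots hmon.ne_zero] at h
    exact h
  have hvec : ∀ μ : s, ∃ x : V, Module.End.HasEigenvector T (μ : ℂ) x := fun μ =>
    (hev μ).exists_hasEigenvector
  choose x hx using hvec
  have hli : LinearIndependent ℂ x :=
    Module.End.eigenvectors_linearIndependent' T (fun μ : s => (μ : ℂ))
      Subtype.coe_injective x hx
  have hne : Nonempty s ∨ Module.finrank ℂ V = 0 := by
    by_cases h : Nonempty s
    · exact Or.inl h
    · right
      rw [not_nonempty_iff] at h
      rw [← hcard, Fintype.card_eq_zero]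
  rcases hne with hne | hzero
  · let b : Module.Basis s ℂ V := basisOfLinearIndependentOfCardEqFinrank hli hcard
    have hb : ∀ μ, b μ = x μ := fun μ => by
      rw [coe_basisOfLinearIndependentOfCardEqFinrank]
    have hTb : ∀ μ, T (b μ) = (μ : ℂ) • b μ := fun μ => by
      rw [hb]
      exact (hx μ).apply_eq_smul
    -- `A` is diagonal
    have hrepr : ∀ (y : V) (ν : s), b.repr (T y) ν = (ν : ℂ) * b.repr y ν := by
      intro y ν
      have h1 : T y = ∑ ν : s, (b.repr y ν * (ν : ℂ)) • b ν := by
        conv_lhs => rw [← b.sum_repr y]
        rw [map_sum]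
        apply Finset.sum_congr rfl
        intro ν _
        rw [map_smul, hTb, smul_smul]
      rw [h1, b.repr_sum_self, mul_comm]
    have hdiag : ∀ μ : s, A (b μ) = b.repr (A (b μ)) μ • b μ := by
      intro μ
      apply b.repr.injective
      ext ν
      have h1 : T (A (b μ)) = (μ : ℂ) • A (b μ) := by
        have h2 := LinearMap.congr_fun hA (b μ)
        rw [Module.End.mul_apply, Module.End.mul_apply, hTb, map_smul] at h2
        exact h2.symm
      have h2 := hrepr (A (b μ)) ν
      rw [h1, map_smul, Finsupp.smul_apply, smul_eq_mul] at h2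
      rw [map_smul, Finsupp.smul_apply, b.repr_self, smul_eq_mul]
      by_cases h3 : μ = ν
      · subst h3
        rw [Finsupp.single_eq_same, mul_one]
      · rw [Finsupp.single_eq_of_ne (Ne.symm h3), mul_zero]
        have h4 : ((μ : ℂ) - ν) * b.repr (A (b μ)) ν = 0 := by
          rw [sub_mul, h2, sub_self]
        rcases mul_eq_zero.1 h4 with h5 | h5
        · exact absurd (Subtype.ext (sub_eq_zero.1 h5)) h3
        · exact h5
    -- interpolation
    let p : Polynomial ℂ := Lagrange.interpolate Finset.univ (fun μ : s => (μ : ℂ))
      (fun μ => b.repr (A (b μ)) μ)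
    have hp : ∀ μ : s, p.eval (μ : ℂ) = b.repr (A (b μ)) μ := fun μ =>
      Lagrange.eval_interpolate_at_node (fun μ => b.repr (A (b μ)) μ)
        (fun a _ b _ h => Subtype.ext h) (Finset.mem_univ μ)
    have hAp : A = Polynomial.aeval T p := by
      apply b.ext
      intro μ
      rw [hdiag μ]
      have h1 := Module.End.aeval_apply_of_hasEigenvector (p := p) (hx μ)
      rw [← hb] at h1
      rw [h1, hp]
    rw [hAp]
    exact Polynomial.aeval_mem_adjoin_singleton ℂ T
  · have hsub : Subsingleton V := Module.finrank_zero_iff.1 hzero
    have : A = 0 := by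
      apply LinearMap.ext
      intro y
      exact Subsingleton.elim _ _
    rw [this]
    exact Subalgebra.zero_mem _

end Pool.Agent.Helper5.MD
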