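import Pool.Agent.Helper5.MD.C4Both

/-!
# MP-P1 : the LU identity in the larger range `2 i, 2 j < κ`

Fix `i, j`.  Both sides of `LL_PP_UU` are rational functions of `κ`, equal at all natural numbers `κ > 3 max i j`, hence equal at every
`κ` where no denominator vanishes.  For `2 i, 2 j < κ` and `w ≤ min i j` all denominators in `lam, mu, pv` are nonzero:
`κ - w - v - 1 > 0`, `2 κ - 3 w > 0`, `κ - 2 v, κ - 2 v - 1, κ - 2 v - 2 > 0` for `v < w`; for `ε = true` also `κ - 3 w ≠ 0`, `2 κ - 3 j ≠ 0`, `3 w - 2 κ ≠ 0` as `3 ∤ κ`.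
(Define `RatAt κ₀ f := ∃ P Q : Polynomial ℚ, Q.eval κ₀ ≠ 0 ∧ ∀ x, Q.eval x ≠ 0 → f x = P.eval x / Q.eval x`, closed under sums, products,
quotients by linear forms; a rational function with infinitely many zeros is zero where its denominator does not vanish.
Alternatively repeat the inductive proof in `C3LU`.)
`PP_eq_zero`: for `κ < 3 w`, `3 ≤ κ` the product `pv κ w` contains the factor with `v = κ / 3` (natural division), where `κ - 3 v ∈ {1, 2}`.
-/

open scoped Nat

set_option linter.unusedTactic false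
set_option linter.unreachableTactic false

namespace Pool.Agent.Helper5.MD

/-! ### rational functions -/

/-- `f` is near `x₀` a rational function whose denominator does not vanish at `x₀` -/
private def RatAt (x₀ : ℚ) (f : ℚ → ℚ) : Prop :=
  ∃ P Q : Polynomial ℚ, Q.eval x₀ ≠ 0 ∧ ∀ x, Q.eval x ≠ 0 → f x = P.eval x / Q.eval x

private lemma RatAt.const (x₀ c : ℚ) : RatAt x₀ (fun _ => c) :=
  ⟨Polynomial.C c, 1, by simp, by simp⟩

private lemma RatAt.var (x₀ : ℚ) : RatAt x₀ (fun x => x) :=
  ⟨Polynomial.X, 1, by simp, by simp⟩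

private lemma RatAt.add {x₀ : ℚ} {f g : ℚ → ℚ} (hf : RatAt x₀ f) (hg : RatAt x₀ g) :
    RatAt x₀ (fun x => f x + g x) := by
  obtain ⟨P, Q, hQ, h⟩ := hf
  obtain ⟨P', Q', hQ', h'⟩ := hg
  refine ⟨P * Q' + P' * Q, Q * Q', by rw [Polynomial.eval_mul]; exact mul_ne_zero hQ hQ', ?_⟩
  intro x hx
  rw [Polynomial.eval_mul] at hx
  have h1 := left_ne_zero_of_mul hx
  have h2 := right_ne_zero_of_mul hx
  simp only [h x h1, h' x h2, Polynomial.eval_mul, Polynomial.eval_add]
  field_simp

private lemma RatAt.neg {x₀ : ℚ} {f : ℚ → ℚ} (hf : RatAt x₀ f) : RatAt x₀ (fun x => -f x) := by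
  obtain ⟨P, Q, hQ, h⟩ := hf
  refine ⟨-P, Q, hQ, ?_⟩
  intro x hx
  simp only [h x hx, Polynomial.eval_neg]
  ring

private lemma RatAt.sub {x₀ : ℚ} {f g : ℚ → ℚ} (hf : RatAt x₀ f) (hg : RatAt x₀ g) :
    RatAt x₀ (fun x => f x - g x) := by
  have := hf.add hg.neg
  simpa only [sub_eq_add_neg] using this

private lemma RatAt.mul {x₀ : ℚ} {f g : ℚ → ℚ} (hf : RatAt x₀ f) (hg : RatAt x₀ g) :
    RatAt x₀ (fun x => f x * g x) := by
  obtain ⟨P, Q, hQ, h⟩ := hf
  obtain ⟨P', Q', hQ', h'⟩ := hg
  refine ⟨P * P', Q * Q', by rw [Polynomial.eval_mul]; exact mul_ne_zero hQ hQ', ?_⟩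
  intro x hx
  rw [Polynomial.eval_mul] at hx
  have h1 := left_ne_zero_of_mul hx
  have h2 := right_ne_zero_of_mul hx
  simp only [h x h1, h' x h2, Polynomial.eval_mul]
  field_simp

private lemma RatAt.div {x₀ : ℚ} {f g : ℚ → ℚ} (hf : RatAt x₀ f) (hg : RatAt x₀ g)
    (h0 : g x₀ ≠ 0) : RatAt x₀ (fun x => f x / g x) := by
  obtain ⟨P, Q, hQ, h⟩ := hf
  obtain ⟨P', Q', hQ', h'⟩ := hg
  have hP' : P'.eval x₀ ≠ 0 := by
    intro h1
    apply h0
    rw [h' x₀ hQ', h1, zero_div]
  refine ⟨P * Q' * Q', Q * P' * Q', ?_, ?_⟩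
  · rw [Polynomial.eval_mul, Polynomial.eval_mul]
    exact mul_ne_zero (mul_ne_zero hQ hP') hQ'
  intro x hx
  rw [Polynomial.eval_mul, Polynomial.eval_mul] at hx
  have h1 := left_ne_zero_of_mul (left_ne_zero_of_mul hx)
  have h2 := right_ne_zero_of_mul (left_ne_zero_of_mul hx)
  have h3 := right_ne_zero_of_mul hx
  simp only [h x h1, h' x h3, Polynomial.eval_mul]
  field_simp

private lemma RatAt.prod {x₀ : ℚ} (s : Finset ℕ) (f : ℕ → ℚ → ℚ)
    (h : ∀ i ∈ s, RatAt x₀ (f i)) : RatAt x₀ (fun x => ∏ i ∈ s, f i x) := by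
  induction s using Finset.induction_on with
  | empty => simpa using RatAt.const x₀ 1
  | insert a s ha ih =>
    simp only [Finset.prod_insert ha]
    exact (h a (Finset.mem_insert_self a s)).mul
      (ih fun i hi => h i (Finset.mem_insert_of_mem hi))

private lemma RatAt.sum {x₀ : ℚ} (s : Finset ℕ) (f : ℕ → ℚ → ℚ)
    (h : ∀ i ∈ s, RatAt x₀ (f i)) : RatAt x₀ (fun x => ∑ i ∈ s, f i x) := by
  induction s using Finset.induction_on with
  | empty => simpa using RatAt.const x₀ 0
  | insert a s ha ih =>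
    simp only [Finset.sum_insert ha]
    exact (h a (Finset.mem_insert_self a s)).add
      (ih fun i hi => h i (Finset.mem_insert_of_mem hi))

private lemma RatAt.eq_zero {x₀ : ℚ} {f : ℚ → ℚ} (hf : RatAt x₀ f) (N : ℕ)
    (h : ∀ n : ℕ, N < n → f n = 0) : f x₀ = 0 := by
  obtain ⟨P, Q, hQ, hPQ⟩ := hf
  have hR : P * Q = 0 := by
    apply Polynomial.eq_zero_of_infinite_isRoot
    have hinf : (Set.range fun n : ℕ => ((N + 1 + n : ℕ) : ℚ)).Infinite := by
      apply Set.infinite_range_of_injective
      intro a b hab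
      have h1 : ((N + 1 + a : ℕ) : ℚ) = ((N + 1 + b : ℕ) : ℚ) := hab
      have h2 : N + 1 + a = N + 1 + b := by exact_mod_cast h1
      omega
    apply hinf.mono
    rintro _ ⟨n, rfl⟩
    show (P * Q).IsRoot _
    rw [Polynomial.IsRoot, Polynomial.eval_mul]
    by_cases hq : Q.eval ((N + 1 + n : ℕ) : ℚ) = 0
    · rw [hq, mul_zero]
    · have h1 := hPQ _ hq
      rw [h _ (by omega)] at h1
      have h2 := (div_eq_zero_iff.1 h1.symm).resolve_right hq
      rw [h2, zero_mul]
  have hQ0 : Q ≠ 0 := by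
    rintro rfl
    simp at hQ
  have hP0 : P = 0 := (mul_eq_zero.1 hR).resolve_right hQ0
  rw [hPQ x₀ hQ, hP0]
  simp

/-! ### the factors -/

private lemma rat_lam (κ i w : ℕ) (hi : 2 * i < κ) : RatAt κ (fun x => lam x i w) := by
  unfold lam
  by_cases h : w ≤ i
  · simp only [if_pos h]
    apply RatAt.prod
    intro v hv
    rw [Finset.mem_Ico] at hv
    have hv1 : (w : ℚ) ≤ v := by exact_mod_cast hv.1
    have hv2 : (v : ℚ) + 1 ≤ i := by exact_mod_cast hv.2
    have hw0 : (0 : ℚ) ≤ w := Nat.cast_nonneg w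
    have hK : 2 * (i : ℚ) < κ := by exact_mod_cast hi
    refine RatAt.div ?_ ?_ ?_
    · (repeat' first
      | exact RatAt.const _ _
      | exact RatAt.var _
      | apply RatAt.mul
      | apply RatAt.sub
      | apply RatAt.add
      | apply RatAt.neg)
    · (repeat' first
      | exact RatAt.const _ _
      | exact RatAt.var _
      | apply RatAt.mul
      | apply RatAt.sub
      | apply RatAt.add
      | apply RatAt.neg)
    · have h1 : (0 : ℚ) < v - w + 1 := by linarith
      have h2 : (0 : ℚ) < 2 * v + 1 := by linarith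
      have h3 : (0 : ℚ) < κ - w - v - 1 := by linarith
      positivity
  · simp only [if_neg h]
    exact RatAt.const _ _

private lemma rat_mu (κ w j : ℕ) (hj : 2 * j < κ) : RatAt κ (fun x => mu x w j) := by
  unfold mu
  by_cases h : w ≤ j
  · simp only [if_pos h]
    have hK : 2 * (j : ℚ) < κ := by exact_mod_cast hj
    have hwj : (w : ℚ) ≤ j := by exact_mod_cast h
    have hw0 : (0 : ℚ) ≤ w := Nat.cast_nonneg w
    apply RatAt.mul
    · refine RatAt.div ?_ ?_ ?_
      · (repeat' first
      | exact RatAt.const _ _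
      | exact RatAt.var _
      | apply RatAt.mul
      | apply RatAt.sub
      | apply RatAt.add
      | apply RatAt.neg)
      · (repeat' first
      | exact RatAt.const _ _
      | exact RatAt.var _
      | apply RatAt.mul
      | apply RatAt.sub
      | apply RatAt.add
      | apply RatAt.neg)
      · have h1 : (0 : ℚ) < 2 * κ - 3 * w := by linarith
        exact h1.ne'
    apply RatAt.prod
    intro v hv
    rw [Finset.mem_Ico] at hv
    have hv1 : (w : ℚ) ≤ v := by exact_mod_cast hv.1
    have hv2 : (v : ℚ) + 1 ≤ j := by exact_mod_cast hv.2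
    refine RatAt.div ?_ ?_ ?_
    · (repeat' first
      | exact RatAt.const _ _
      | exact RatAt.var _
      | apply RatAt.mul
      | apply RatAt.sub
      | apply RatAt.add
      | apply RatAt.neg)
    · (repeat' first
      | exact RatAt.const _ _
      | exact RatAt.var _
      | apply RatAt.mul
      | apply RatAt.sub
      | apply RatAt.add
      | apply RatAt.neg)
    · have h1 : (0 : ℚ) < v - w + 1 := by linarith
      have h2 : (0 : ℚ) < 2 * κ - 2 * v - 1 := by linarith
      have h3 : (0 : ℚ) < κ - w - v - 1 := by linarith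
      positivity
  · simp only [if_neg h]
    exact RatAt.const _ _

private lemma rat_pv (κ w : ℕ) (hw : 2 * w < κ) : RatAt κ (fun x => pv x w) := by
  unfold pv
  have hK : 2 * (w : ℚ) < κ := by exact_mod_cast hw
  apply RatAt.mul
  · (repeat' first
      | exact RatAt.const _ _
      | exact RatAt.var _
      | apply RatAt.mul
      | apply RatAt.sub
      | apply RatAt.add
      | apply RatAt.neg)
  apply RatAt.prod
  intro v hv
  rw [Finset.mem_Ico] at hv
  have hv1 : (1 : ℚ) ≤ v := by exact_mod_cast hv.1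
  have hv2 : (v : ℚ) + 1 ≤ w := by exact_mod_cast hv.2
  simp only [pow_two]
  refine RatAt.div ?_ ?_ ?_
  · (repeat' first
      | exact RatAt.const _ _
      | exact RatAt.var _
      | apply RatAt.mul
      | apply RatAt.sub
      | apply RatAt.add
      | apply RatAt.neg)
  · (repeat' first
      | exact RatAt.const _ _
      | exact RatAt.var _
      | apply RatAt.mul
      | apply RatAt.sub
      | apply RatAt.add
      | apply RatAt.neg)
  · have h1 : (0 : ℚ) < 2 * v + 1 := by linarith
    have h2 : (0 : ℚ) < 2 * κ - 2 * v - 1 := by linarith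
    have h3 : (0 : ℚ) < κ - 2 * v := by linarith
    have h4 : (0 : ℚ) < κ - 2 * v - 1 := by linarith
    have h5 : (0 : ℚ) < κ - 2 * v - 2 := by linarith
    positivity

private lemma rat_ch (κ : ℕ) (f : ℚ → ℚ) (hf : RatAt κ f) (n : ℕ) :
    RatAt κ (fun x => ch (f x) n) := by
  unfold ch
  refine RatAt.div ?_ (RatAt.const _ _) (by exact_mod_cast Nat.factorial_ne_zero n)
  apply RatAt.prod
  intro v _
  exact hf.sub (RatAt.const _ _)

private lemma rat_bb (ε : Bool) (κ i j : ℕ) : RatAt κ (fun x => bb ε x i j) := by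
  have h0 : RatAt (κ : ℚ) (fun x => (i : ℚ) + j - x) := by
    (repeat' first
      | exact RatAt.const _ _
      | exact RatAt.var _
      | apply RatAt.mul
      | apply RatAt.sub
      | apply RatAt.add
      | apply RatAt.neg)
  have h1 : RatAt (κ : ℚ) (fun x => (i : ℚ) + j - x - 1) := by
    (repeat' first
      | exact RatAt.const _ _
      | exact RatAt.var _
      | apply RatAt.mul
      | apply RatAt.sub
      | apply RatAt.add
      | apply RatAt.neg)
  have g0 := rat_ch κ _ h0
  have g1 := rat_ch κ _ h1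
  cases ε with
  | false =>
    simp only [bb, b1, Bool.false_eq_true, if_false]
    by_cases h : j ≤ 2 * i
    · simp only [if_pos h]
      exact (g0 _).add (g1 _)
    · simp only [if_neg h]
      exact RatAt.const _ _
  | true =>
    simp only [bb, b2, if_true]
    by_cases h : j < 2 * i
    · simp only [if_pos h]
      exact (RatAt.const _ _).mul ((g0 _).add (g1 _))
    · simp only [if_neg h]
      exact RatAt.const _ _

private lemma ne_three {κ w : ℕ} (h3 : ¬ 3 ∣ κ) : ((κ : ℚ) - 3 * w) ≠ 0 := by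
  intro h
  apply h3
  refine ⟨w, ?_⟩
  have : (κ : ℚ) = 3 * w := by linarith
  exact_mod_cast this

private lemma rat_LL (ε : Bool) (κ i w : ℕ) (h3 : ¬ 3 ∣ κ) (hi : 2 * i < κ) :
    RatAt κ (fun x => LL ε x i w) := by
  cases ε with
  | false =>
    simp only [LL, Bool.false_eq_true, if_false]
    exact rat_lam κ i w hi
  | true =>
    simp only [LL, if_true]
    refine (rat_lam κ i w hi).mul (RatAt.div ?_ ?_ (ne_three h3))
    · (repeat' first
      | exact RatAt.const _ _
      | exact RatAt.var _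
      | apply RatAt.mul
      | apply RatAt.sub
      | apply RatAt.add
      | apply RatAt.neg)
    · (repeat' first
      | exact RatAt.const _ _
      | exact RatAt.var _
      | apply RatAt.mul
      | apply RatAt.sub
      | apply RatAt.add
      | apply RatAt.neg)

private lemma rat_UU (ε : Bool) (κ w j : ℕ) (hj : 2 * j < κ) :
    RatAt κ (fun x => UU ε x w j) := by
  cases ε with
  | false =>
    simp only [UU, Bool.false_eq_true, if_false]
    exact rat_mu κ w j hj
  | true =>
    simp only [UU, if_true]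
    have hK : 2 * (j : ℚ) < κ := by exact_mod_cast hj
    have hj0 : (0 : ℚ) ≤ j := Nat.cast_nonneg j
    refine (rat_mu κ w j hj).mul (RatAt.div ?_ ?_ ?_)
    · (repeat' first
      | exact RatAt.const _ _
      | exact RatAt.var _
      | apply RatAt.mul
      | apply RatAt.sub
      | apply RatAt.add
      | apply RatAt.neg)
    · (repeat' first
      | exact RatAt.const _ _
      | exact RatAt.var _
      | apply RatAt.mul
      | apply RatAt.sub
      | apply RatAt.add
      | apply RatAt.neg)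
    · have h1 : (0 : ℚ) < 2 * κ - 3 * j := by linarith
      exact h1.ne'

private lemma rat_PP (ε : Bool) (κ w : ℕ) (hw : 2 * w < κ) :
    RatAt κ (fun x => PP ε x w) := by
  cases ε with
  | false =>
    simp only [PP, Bool.false_eq_true, if_false]
    exact rat_pv κ w hw
  | true =>
    simp only [PP, if_true]
    have hK : 2 * (w : ℚ) < κ := by exact_mod_cast hw
    have hw0 : (0 : ℚ) ≤ w := Nat.cast_nonneg w
    refine (rat_pv κ w hw).mul (RatAt.div ?_ ?_ ?_)
    · (repeat' first
      | exact RatAt.const _ _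
      | exact RatAt.var _
      | apply RatAt.mul
      | apply RatAt.sub
      | apply RatAt.add
      | apply RatAt.neg)
    · (repeat' first
      | exact RatAt.const _ _
      | exact RatAt.var _
      | apply RatAt.mul
      | apply RatAt.sub
      | apply RatAt.add
      | apply RatAt.neg)
    · have h1 : 3 * (w : ℚ) - 2 * κ < 0 := by linarith
      exact h1.ne

theorem LL_PP_UU_ext (ε : Bool) (κ i j : ℕ) (h3 : ¬ 3 ∣ κ) (hi : 1 ≤ i) (hj : 1 ≤ j)
    (hi' : 2 * i < κ) (hj' : 2 * j < κ) :
    ∑ w ∈ Finset.Icc 1 (min i j), LL ε κ i w * PP ε κ w * UU ε κ w j = bb ε κ i j := by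
  have hrat : RatAt κ (fun x => ∑ w ∈ Finset.Icc 1 (min i j), LL ε x i w * PP ε x w * UU ε x w j
      - bb ε x i j) := by
    apply RatAt.sub
    · apply RatAt.sum
      intro w hw
      rw [Finset.mem_Icc] at hw
      have hwi : w ≤ i := hw.2.trans (min_le_left _ _)
      exact ((rat_LL ε κ i w h3 hi').mul (rat_PP ε κ w (by omega))).mul (rat_UU ε κ w j hj')
    · exact rat_bb ε κ i j
  have h0 := hrat.eq_zero (3 * max i j) (fun n hn => by
    have h1 : i ≤ max i j := le_max_left _ _
    have h2 : j ≤ max i j := le_max_right _ _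
    exact sub_eq_zero.2 (LL_PP_UU ε n i j hi hj (by omega) (by omega)))
  exact sub_eq_zero.1 h0

theorem PP_eq_zero (ε : Bool) (κ w : ℕ) (h3 : ¬ 3 ∣ κ) (h : κ < 3 * w) (hk : 3 ≤ κ) :
    PP ε κ w = 0 := by
  have hpv : pv κ w = 0 := by
    unfold pv
    have hm : κ / 3 ∈ Finset.Ico 1 w := by
      rw [Finset.mem_Ico]
      omega
    have hz : ∏ v ∈ Finset.Ico 1 w,
      (-((κ : ℚ) - 3 * v) * (κ - 3 * v - 1) * (κ - 3 * v - 2) *
      (2 * κ - 3 * v - 1) * (2 * κ - 3 * v - 2) * (2 * κ - 3 * v - 3) /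
      (4 * (2 * v + 1) * (2 * κ - 2 * v - 1) * (κ - 2 * v) * (κ - 2 * v - 1) ^ 2 *
        (κ - 2 * v - 2))) = 0 := by
      apply Finset.prod_eq_zero hm
      obtain ⟨q, hq⟩ : ∃ q, q = κ / 3 := ⟨_, rfl⟩
      rw [← hq]
      have hc : κ = 3 * q + 1 ∨ κ = 3 * q + 2 := by omega
      rcases hc with hc | hc
      · have h1 : (κ : ℚ) - 3 * q - 1 = 0 := by
          rw [hc]; push_cast; ring
        rw [h1]
        simp
      · have h1 : (κ : ℚ) - 3 * q - 2 = 0 := by
          rw [hc]; push_cast; ring
        rw [h1]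
        simp
    rw [hz, mul_zero]
  unfold PP
  rw [hpv]
  split_ifs <;> simp

end Pool.Agent.Helper5.MD
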