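import Pool.Agent.Helper5.MD.VGBasic
import Pool.Agent.Helper5.MD.VBinom

/-!
# MP-P2 : for `κ = 2^m` the lower triangular factor is the identity modulo two

Put `a = i - w`, `h = a / 2`.  `lam κ i w = ∏_(t < a) (κ - w + t) (κ - w - 1 - t) (κ - 3 w - t) / (2 (t + 1) (2 w + 2 t + 1) (κ - 2 w - 1 - t))`.
For odd `t = 2 u + 1 < a`: `κ - 2 w - 1 - t = 2 (κ/2 - w - 1 - u)` and `v2 (κ/2 - w - 1 - u) = v2 (w + 1 + u) = v2 (κ - w - 1 - u)` (as `κ = 2^m`, `0 < w + 1 + u < κ/2`);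
for even `t` it is odd.  So `v2 ∏_(t < a) (κ - 2 w - 1 - t) = h + ∑_(u < h) v2 (κ - w - 1 - u)`, which cancels the first `h` factors of
`∏ (κ - w - 1 - t)`.  Products of `n` consecutive integers are divisible by `n!`, so
`v2 (2^(2a) lam) ≥ 2 a - a - v2 (a!) + v2 (a!) [κ - w + t] + v2 (a!) [κ - 3 w - t] + v2 ((a-h)!) - h ≥ a - h + v2 (a!) ≥ a` (`v2 (a!) ≥ h`), if `ε = false`
(if some factor of the numerator is zero, so is the entry).  For `ε = true` the factor `κ - 3 w` is replaced by `κ - 3 i`: replace `v2 (a!)` by `v2 ((a-1)!) = v2 (a!) - v2 a`,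
total `≥ a - v2 a ≥ 1`.
-/

open scoped Nat

namespace Pool.Agent.Helper5.MD

open Finset

private theorem p2_v2_sub (k x : ℕ) (h0 : 0 < x) (h1 : x < 2 ^ k) :
    padicValNat 2 (2 ^ k - x) = padicValNat 2 x := by
  obtain ⟨e, o, ho, hx⟩ := Nat.exists_eq_two_pow_mul_odd h0.ne'
  have ho1 : 1 ≤ o := ho.pos
  have he : e < k := by
    by_contra hcon
    push Not at hcon
    have h2 : 2 ^ k ≤ 2 ^ e := Nat.pow_le_pow_right (by norm_num) hcon
    have h3 : 2 ^ e * 1 ≤ 2 ^ e * o := Nat.mul_le_mul_left _ ho1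
    omega
  obtain ⟨d, rfl⟩ : ∃ d, k = e + (d + 1) := ⟨k - e - 1, by omega⟩
  have hlt : o < 2 ^ (d + 1) := by
    rw [hx, pow_add] at h1
    exact lt_of_mul_lt_mul_left h1 (Nat.zero_le _)
  have hsub : 2 ^ (e + (d + 1)) - x = 2 ^ e * (2 ^ (d + 1) - o) := by
    rw [hx, pow_add, Nat.mul_sub]
  have hodd : Odd (2 ^ (d + 1) - o) := by
    apply Nat.Even.sub_odd hlt.le _ ho
    rw [pow_succ]
    exact even_iff_two_dvd.2 (Dvd.intro_left _ rfl)
  have hv : ∀ z : ℕ, Odd z → padicValNat 2 (2 ^ e * z) = e := by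
    intro z hz
    have hz0 : z ≠ 0 := hz.pos.ne'
    rw [padicValNat.mul (by positivity) hz0, padicValNat.prime_pow,
      padicValNat.eq_zero_of_not_dvd (by
        intro hdvd
        exact (Nat.not_even_iff_odd.2 hz) (even_iff_two_dvd.2 hdvd))]
    ring
  rw [hsub, hv _ hodd, hx, hv _ ho]

private theorem p2_split (f : ℕ → ℚ) (a : ℕ) :
    ∏ t ∈ range a, f t =
      (∏ u ∈ range (a - a / 2), f (2 * u)) * ∏ u ∈ range (a / 2), f (2 * u + 1) := by
  induction a with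
  | zero => simp
  | succ a ih =>
    rw [prod_range_succ, ih]
    rcases Nat.even_or_odd' a with ⟨b, hb | hb⟩
    · have h1 : a / 2 = b := by omega
      have h2 : a - b = b := by omega
      have h3 : (a + 1) / 2 = b := by omega
      have h4 : a + 1 - b = b + 1 := by omega
      rw [h1, h3, h2, h4, prod_range_succ _ b, hb]
      ring
    · have h1 : a / 2 = b := by omega
      have h2 : a - b = b + 1 := by omega
      have h3 : (a + 1) / 2 = b + 1 := by omega
      have h4 : a + 1 - (b + 1) = b + 1 := by omega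
      rw [h1, h3, h2, h4, prod_range_succ (fun u => f (2 * u + 1)) b, hb]
      ring

private theorem p2_VG_odd (z : ℤ) (hz : Odd z) : VG 0 ((z : ℚ)⁻¹) := by
  right
  rw [padicValRat.inv, padicValRat.of_int, padicValInt.eq_zero_of_not_dvd]
  · simp
  · intro hdvd
    have := Int.not_even_iff_odd.2 hz
    exact this (even_iff_two_dvd.2 (by exact_mod_cast hdvd))

private theorem p2_intprod (s : Finset ℕ) (f : ℕ → ℤ) : VG 0 (∏ t ∈ s, (f t : ℚ)) := by
  have : (∏ t ∈ s, (f t : ℚ)) = ((∏ t ∈ s, f t : ℤ) : ℚ) := by push_cast; rfl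
  rw [this]
  exact VG_int _

theorem VG_LL_pow (ε : Bool) (m i w : ℕ) (hw : 1 ≤ w) (hwi : w < i) (h3 : 3 * w < 2 ^ m)
    (h2 : 2 * i < 2 ^ m) :
    VG 1 (2 ^ (2 * (i : ℤ) - 2 * w) * LL ε ((2 ^ m : ℕ) : ℚ) i w) := by
  obtain ⟨a, rfl⟩ := Nat.exists_eq_add_of_le hwi.le
  have ha : 1 ≤ a := by omega
  obtain ⟨m', rfl⟩ : ∃ m', m = m' + 1 := by
    cases m with
    | zero => simp at h2; omega
    | succ m' => exact ⟨m', rfl⟩
  set n : ℕ := 2 ^ m' with hn
  have hκ : 2 ^ (m' + 1) = 2 * n := by rw [hn, pow_succ]; ring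
  rw [hκ] at h2 h3
  set h : ℕ := a / 2 with hh
  -- the factors
  set NA : ℚ := ∏ t ∈ range a, (((2 * n : ℕ) : ℚ) - w + t) with hNA
  set NC1 : ℚ := ∏ u ∈ range h, (((2 * n : ℕ) : ℚ) - w - 1 - u) with hNC1
  set NC2 : ℚ := ∏ u ∈ range (a - h), (((2 * n : ℕ) : ℚ) - w - 1 - (h + u : ℕ)) with hNC2
  set FA : ℚ := ∏ t ∈ range a, ((t : ℚ) + 1) with hFA
  set FO : ℚ := ∏ t ∈ range a, (2 * (w : ℚ) + 2 * t + 1) with hFO
  set DE : ℚ := ∏ u ∈ range (a - h), (((2 * n : ℕ) : ℚ) - 2 * w - 1 - (2 * u : ℕ)) with hDE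
  set DN : ℚ := ∏ u ∈ range h, ((n : ℚ) - w - 1 - u) with hDN
  have hFA0 : FA ≠ 0 := by
    rw [hFA, prod_ne_zero_iff]
    intro t _
    positivity
  have hFO0 : FO ≠ 0 := by
    rw [hFO, prod_ne_zero_iff]
    intro t _
    positivity
  have hDE0 : DE ≠ 0 := by
    rw [hDE, prod_ne_zero_iff]
    intro u hu
    rw [mem_range] at hu
    have h5 : 2 * w + 1 + 2 * u < 2 * n := by omega
    have h6 : (2 * (w : ℚ) + 1 + 2 * u) < 2 * n := by exact_mod_cast h5
    push_cast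
    intro hcon
    linarith
  have hDN0 : DN ≠ 0 := by
    rw [hDN, prod_ne_zero_iff]
    intro u hu
    rw [mem_range] at hu
    have h5 : w + 1 + u < n := by omega
    have h6 : ((w : ℚ) + 1 + u) < n := by exact_mod_cast h5
    intro hcon
    linarith
  have hNC : ∏ t ∈ range a, (((2 * n : ℕ) : ℚ) - w - 1 - t) = NC1 * NC2 := by
    have h5 : a = h + (a - h) := by omega
    rw [hNC1, hNC2]
    conv_lhs => rw [h5]
    rw [prod_range_add]
  have hD : ∏ t ∈ range a, (((2 * n : ℕ) : ℚ) - 2 * w - 1 - t) = DE * (2 ^ h * DN) := by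
    rw [p2_split (fun t => ((2 * n : ℕ) : ℚ) - 2 * w - 1 - t) a]
    congr 1
    rw [hDN]
    have h5 : (2 : ℚ) ^ h = ∏ _u ∈ range h, (2 : ℚ) := by rw [prod_const, card_range]
    rw [h5, ← prod_mul_distrib]
    apply prod_congr rfl
    intro u _
    push_cast
    ring
  have hlam : ∀ NB : ℚ, NB = ∏ t ∈ range a, (((2 * n : ℕ) : ℚ) - 3 * w - t) →
      lam ((2 * n : ℕ) : ℚ) (w + a) w =
        NA * NB * (NC1 * NC2) / (2 ^ a * FA * FO * (DE * (2 ^ h * DN))) := by
    intro NB hNB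
    unfold lam
    rw [if_pos (Nat.le_add_right w a), prod_Ico_eq_prod_range, Nat.add_sub_cancel_left, hNB,
      ← hNC, ← hD, hNA, hFA, hFO]
    have h5 : (2 : ℚ) ^ a = ∏ _u ∈ range a, (2 : ℚ) := by rw [prod_const, card_range]
    rw [h5, ← prod_mul_distrib, ← prod_mul_distrib, ← prod_mul_distrib, ← prod_mul_distrib,
      ← prod_mul_distrib, ← prod_div_distrib]
    apply prod_congr rfl
    intro t _
    push_cast
    congr 1
    · ring
    · ring
  -- the final form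
  have key : ∀ NB q : ℚ, VG 0 NB →
      q = NA * NB * (NC1 * NC2) / (2 ^ a * FA * FO * (DE * (2 ^ h * DN))) →
      VG 1 (2 ^ (2 * ((w + a : ℕ) : ℤ) - 2 * w) * q) := by
    intro NB q hNB hq
    have e1 : (2 : ℚ) ^ (2 * ((w + a : ℕ) : ℤ) - 2 * w) * q =
        2 ^ ((a : ℤ) - h) * ((NA / FA) * (NB * (NC2 * ((NC1 / DN) * (DE⁻¹ * FO⁻¹))))) := by
      have e2 : (2 : ℚ) ^ (2 * ((w + a : ℕ) : ℤ) - 2 * w) =
          2 ^ ((a : ℤ) - h) * (2 ^ a * 2 ^ h) := by
        rw [← zpow_natCast, ← zpow_natCast, ← zpow_add₀ two_ne_zero, ← zpow_add₀ two_ne_zero]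
        congr 1
        push_cast
        ring
      rw [e2, hq]
      have h2a : (2 : ℚ) ^ a ≠ 0 := by positivity
      have h2h : (2 : ℚ) ^ h ≠ 0 := by positivity
      field_simp
    rw [e1]
    have v1 : VG 0 (NA / FA) := by
      have e3 : NA / FA = (((2 * n - w - 1 + a).choose a : ℕ) : ℚ) := by
        have h5 : 1 ≤ 2 * n - w := by omega
        have h6 := prod_asc (2 * n - w - 1) a
        have h7 := prod_fact a
        rw [div_eq_iff hFA0, hFA, h7, hNA,
          mul_comm (((2 * n - w - 1 + a).choose a : ℕ) : ℚ) _, ← h6]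
        apply prod_congr rfl
        intro t _
        have h8 : ((2 * n - w - 1 : ℕ) : ℚ) = ((2 * n : ℕ) : ℚ) - w - 1 := by
          rw [Nat.cast_sub h5, Nat.cast_sub (by omega)]
          push_cast
          ring
        rw [h8]
        ring
      rw [e3]
      exact_mod_cast VG_int (((2 * n - w - 1 + a).choose a : ℕ) : ℤ)
    have v2 : VG 0 NC2 := by
      have := p2_intprod (range (a - h)) (fun u => ((2 * n : ℕ) : ℤ) - w - 1 - (h + u : ℕ))
      rw [hNC2]
      push_cast at this ⊢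
      exact this
    have v3 : VG 0 (NC1 / DN) := by
      rw [hNC1, hDN, ← prod_div_distrib]
      apply VG_prod
      intro u hu
      rw [mem_range] at hu
      have h5 : w + 1 + u < n := by omega
      have e4 : ((2 * n : ℕ) : ℚ) - w - 1 - u = ((2 ^ (m' + 1) - (w + 1 + u) : ℕ) : ℚ) := by
        rw [Nat.cast_sub (by omega), hκ]
        push_cast
        ring
      have e5 : (n : ℚ) - w - 1 - u = ((2 ^ m' - (w + 1 + u) : ℕ) : ℚ) := by
        rw [Nat.cast_sub (by omega), ← hn]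
        push_cast
        ring
      have n4 : (((2 ^ (m' + 1) - (w + 1 + u) : ℕ)) : ℚ) ≠ 0 := by
        have : 2 ^ (m' + 1) - (w + 1 + u) ≠ 0 := by omega
        exact_mod_cast this
      have n5 : ((2 ^ m' - (w + 1 + u) : ℕ) : ℚ) ≠ 0 := by
        have : 2 ^ m' - (w + 1 + u) ≠ 0 := by omega
        exact_mod_cast this
      right
      rw [e4, e5, padicValRat.div n4 n5, padicValRat.of_nat, padicValRat.of_nat,
        p2_v2_sub _ _ (by omega) (by omega), p2_v2_sub _ _ (by omega) (by omega)]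
      simp
    have v4 : VG 0 DE⁻¹ := by
      rw [hDE, ← prod_inv_distrib]
      apply VG_prod
      intro u _
      have e6 : ((2 * n : ℕ) : ℚ) - 2 * w - 1 - (2 * u : ℕ) =
          (((2 * n : ℤ) - 2 * w - 1 - 2 * u : ℤ) : ℚ) := by
        push_cast
        ring
      rw [e6]
      apply p2_VG_odd
      exact ⟨(n : ℤ) - w - 1 - u, by ring⟩
    have v5 : VG 0 FO⁻¹ := by
      rw [hFO, ← prod_inv_distrib]
      apply VG_prod
      intro t _
      have e6 : 2 * (w : ℚ) + 2 * t + 1 = ((2 * (w : ℤ) + 2 * t + 1 : ℤ) : ℚ) := by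
        push_cast
        ring
      rw [e6]
      apply p2_VG_odd
      exact ⟨(w : ℤ) + t, by ring⟩
    have v6 := (VG_two_zpow ((a : ℤ) - h)).mul
      (v1.mul (hNB.mul (v2.mul (v3.mul (v4.mul v5)))))
    refine v6.mono ?_
    have : h + 1 ≤ a := by omega
    omega
  have hκ' : ((2 ^ (m' + 1) : ℕ) : ℚ) = ((2 * n : ℕ) : ℚ) := by rw [hκ]
  rw [hκ']
  cases ε with
  | false =>
    simp only [LL, Bool.false_eq_true, if_false]
    refine key _ _ ?_ (hlam _ rfl)
    have := p2_intprod (range a) (fun t => ((2 * n : ℕ) : ℤ) - 3 * w - t)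
    push_cast at this ⊢
    exact this
  | true =>
    simp only [LL, if_true]
    obtain ⟨b, rfl⟩ : ∃ b, a = b + 1 := ⟨a - 1, by omega⟩
    have h3w : ((2 * n : ℕ) : ℚ) - 3 * w ≠ 0 := by
      have h6 : (3 * (w : ℚ)) < ((2 * n : ℕ) : ℚ) := by exact_mod_cast h3
      intro hcon
      linarith
    refine key ((((2 * n : ℕ) : ℚ) - 3 * ((w + (b + 1) : ℕ) : ℚ)) *
      ∏ t ∈ range b, (((2 * n : ℕ) : ℚ) - 3 * w - (t + 1 : ℕ))) _ ?_ ?_
    · have v7 := VG_int (((2 * n : ℕ) : ℤ) - 3 * ((w + (b + 1) : ℕ) : ℤ))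
      have v8 := p2_intprod (range b) (fun t => ((2 * n : ℕ) : ℤ) - 3 * w - (t + 1 : ℕ))
      have v9 := v7.mul v8
      push_cast at v9 ⊢
      simpa using v9
    · rw [hlam _ rfl, prod_range_succ']
      have e7 : ((2 * n : ℕ) : ℚ) - 3 * w - ((0 : ℕ) : ℚ) = ((2 * n : ℕ) : ℚ) - 3 * w := by simp
      rw [e7]
      have hden : (2 : ℚ) ^ (b + 1) * FA * FO * (DE * (2 ^ h * DN)) ≠ 0 := by
        have : (2 : ℚ) ^ (b + 1) ≠ 0 := by positivity
        have : (2 : ℚ) ^ h ≠ 0 := by positivity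
        simp only [ne_eq, mul_eq_zero, not_or]
        exact ⟨⟨⟨by assumption, hFA0⟩, hFO0⟩, hDE0, by assumption, hDN0⟩
      generalize (2 : ℚ) ^ (b + 1) * FA * FO * (DE * (2 ^ h * DN)) = DD at hden ⊢
      field_simp

end Pool.Agent.Helper5.MD
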