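import Pool.Agent.Helper5.MD.VGBasic

/-!
# MP-P3 : for `κ = 2^m` the upper triangular factor is the identity modulo two

Put `b = j - w`, `h = b / 2`.  `mu κ w j = ± ∏_(t < b) (w + t + 1) (w - t) (2 κ - 3 w - t) / (2 (2 κ - 2 w - 2 t - 1) (t + 1) (κ - 2 w - 1 - t)) * (2 κ - 3 j) / (2 κ - 3 w)`.
It is zero if `j > 2 w`.  As in MP-P2: `v2 ∏_(t < b) (κ - 2 w - 1 - t) = h + ∑_(u < h) v2 (w + 1 + u)` cancels the first `h` factors of `∏ (w + 1 + t)`;
`∏ (w - t)` (`t < b`) is divisible by `b!`.  Total: `≥ b - h ≥ 1`.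
-/

open scoped Nat

namespace Pool.Agent.Helper5.MD

theorem VG.div_p3 {x y : ℚ} {n k : ℤ} (hx : VG (n + k) x) (hy : y ≠ 0)
    (hk : padicValRat 2 y ≤ k) : VG n (x / y) := by
  rcases hx with hx | hx
  · left
    rw [hx, zero_div]
  · by_cases h0 : x = 0
    · left
      rw [h0, zero_div]
    · right
      rw [padicValRat.div h0 hy]
      omega

theorem p3_val_two_pow_sub (m x : ℕ) (hx : 0 < x) (hxm : x < 2 ^ m) :
    padicValNat 2 (2 ^ m - x) = padicValNat 2 x := by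
  obtain ⟨a, y, hy, rfl⟩ := Nat.exists_eq_two_pow_mul_odd (n := x) (by omega)
  have ha : a < m := by
    by_contra hcon
    have h1 : 2 ^ m ≤ 2 ^ a := Nat.pow_le_pow_right (by norm_num) (by omega)
    have h2 : 2 ^ a ≤ 2 ^ a * y := Nat.le_mul_of_pos_right _ hy.pos
    omega
  obtain ⟨c, rfl⟩ : ∃ c, m = a + (c + 1) := ⟨m - a - 1, by omega⟩
  have e1 : 2 ^ (a + (c + 1)) - 2 ^ a * y = 2 ^ a * (2 ^ (c + 1) - y) := by
    rw [pow_add, Nat.mul_sub]
  have hlt : y < 2 ^ (c + 1) := by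
    rw [pow_add] at hxm
    exact lt_of_mul_lt_mul_left hxm (Nat.zero_le _)
  have hodd : Odd (2 ^ (c + 1) - y) := by
    apply Nat.Even.sub_odd hlt.le _ hy
    exact ⟨2 ^ c, by ring⟩
  have h2 : Fact (Nat.Prime 2) := ⟨Nat.prime_two⟩
  rw [e1, padicValNat.mul (by positivity) (by omega), padicValNat.mul (by positivity) hy.pos.ne',
    padicValNat.eq_zero_of_not_dvd (n := 2 ^ (c + 1) - y)
      (fun h => (Nat.not_even_iff_odd.2 hodd) (even_iff_two_dvd.2 h)),
    padicValNat.eq_zero_of_not_dvd (n := y)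
      (fun h => (Nat.not_even_iff_odd.2 hy) (even_iff_two_dvd.2 h))]

theorem p3_val_desc (m w b : ℕ) (hb : 2 * (w + b) < 2 ^ (m + 1)) :
    padicValNat 2 ((2 ^ (m + 1) - 2 * w - 1).descFactorial b) =
      b / 2 + padicValNat 2 ((w + 1).ascFactorial (b / 2)) := by
  have h2 : Fact (Nat.Prime 2) := ⟨Nat.prime_two⟩
  induction b with
  | zero => simp
  | succ b ih =>
    have ih' := ih (by omega)
    have hne : (2 ^ (m + 1) - 2 * w - 1).descFactorial b ≠ 0 := by
      rw [Ne, Nat.descFactorial_eq_zero_iff_lt]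
      omega
    have hf : 2 ^ (m + 1) - 2 * w - 1 - b ≠ 0 := by omega
    rw [Nat.descFactorial_succ, padicValNat.mul hf hne, ih']
    rcases Nat.even_or_odd' b with ⟨h, rfl | rfl⟩
    · have e1 : (2 * h + 1) / 2 = h := by omega
      have e2 : 2 * h / 2 = h := by omega
      rw [e1, e2, padicValNat.eq_zero_of_not_dvd, zero_add]
      rw [pow_succ] at hf hb ⊢
      omega
    · have e1 : (2 * h + 1 + 1) / 2 = h + 1 := by omega
      have e2 : (2 * h + 1) / 2 = h := by omega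
      have e3 : 2 ^ (m + 1) - 2 * w - 1 - (2 * h + 1) = 2 * (2 ^ m - (w + 1 + h)) := by
        rw [pow_succ]
        omega
      have hlt : w + 1 + h < 2 ^ m := by
        rw [pow_succ] at hb
        omega
      rw [e1, e2, e3, padicValNat.mul (by norm_num) (by omega),
        p3_val_two_pow_sub m (w + 1 + h) (by omega) hlt, padicValNat_self,
        Nat.ascFactorial_succ, padicValNat.mul (by omega) (Nat.ascFactorial_pos _ _).ne']
      ring

/-- the main factor -/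
theorem p3_VG_G (m w b : ℕ) (hb : 2 * (w + b) < 2 ^ (m + 1)) :
    VG ((b : ℤ) - (b / 2 : ℕ)) (2 ^ (2 * (b : ℤ)) * ∏ t ∈ Finset.range b,
      (-((w : ℚ) + t + 1) * (w - t) / (2 * (2 * ((2 ^ (m + 1) : ℕ) : ℚ) - 2 * w - 2 * t - 1) *
        (t + 1) * (((2 ^ (m + 1) : ℕ) : ℚ) - 2 * w - 1 - t)))) := by
  have h2 : Fact (Nat.Prime 2) := ⟨Nat.prime_two⟩
  set κ := 2 ^ (m + 1) with hκ
  set h := b / 2 with hh
  have hκev : κ % 2 = 0 := by
    rw [hκ, pow_succ]
    omega
  -- numerators and denominators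
  have e1 : ∏ t ∈ Finset.range b, ((w : ℚ) + t + 1) = (((w + 1).ascFactorial b : ℕ) : ℚ) := by
    rw [Nat.ascFactorial_eq_prod_range, Nat.cast_prod]
    apply Finset.prod_congr rfl
    intro t _
    push_cast
    ring
  have e2 : ∏ t ∈ Finset.range b, ((w : ℚ) - t) = ((w.descFactorial b : ℕ) : ℚ) := by
    rw [← descPochhammer_eval_eq_descFactorial, descPochhammer_eval_eq_prod_range]
  have e3 : ∏ t ∈ Finset.range b, ((κ : ℚ) - 2 * w - 1 - t) =
      (((κ - 2 * w - 1).descFactorial b : ℕ) : ℚ) := by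
    rw [← descPochhammer_eval_eq_descFactorial, descPochhammer_eval_eq_prod_range]
    apply Finset.prod_congr rfl
    intro t _
    have : ((κ - 2 * w - 1 : ℕ) : ℚ) = (κ : ℚ) - 2 * w - 1 := by
      rw [Nat.sub_sub, Nat.cast_sub (by omega)]
      push_cast
      ring
    rw [this]
  have e4 : ∏ t ∈ Finset.range b, ((t : ℚ) + 1) = ((b ! : ℕ) : ℚ) := by
    rw [← Finset.prod_range_add_one_eq_factorial, Nat.cast_prod]
    apply Finset.prod_congr rfl
    intro t _
    push_cast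
    ring
  have e5 : ∏ t ∈ Finset.range b, (2 * (κ : ℚ) - 2 * w - 2 * t - 1) =
      ((∏ t ∈ Finset.range b, (2 * κ - 2 * w - 2 * t - 1) : ℕ) : ℚ) := by
    rw [Nat.cast_prod]
    apply Finset.prod_congr rfl
    intro t ht
    have ht' := Finset.mem_range.1 ht
    rw [Nat.sub_sub, Nat.sub_sub, Nat.cast_sub (by omega)]
    push_cast
    ring
  have hprod : ∏ t ∈ Finset.range b,
      (-((w : ℚ) + t + 1) * (w - t) / (2 * (2 * (κ : ℚ) - 2 * w - 2 * t - 1) *
        (t + 1) * ((κ : ℚ) - 2 * w - 1 - t))) =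
      ((-1) ^ b * (((w + 1).ascFactorial b : ℕ) : ℚ) * ((w.descFactorial b : ℕ) : ℚ)) /
      (((2 ^ b * (∏ t ∈ Finset.range b, (2 * κ - 2 * w - 2 * t - 1)) * b ! *
        (κ - 2 * w - 1).descFactorial b : ℕ)) : ℚ) := by
    rw [Finset.prod_div_distrib]
    congr 1
    · rw [← e1, ← e2]
      have : ((-1 : ℚ)) ^ b = ∏ _t ∈ Finset.range b, (-1 : ℚ) := by
        rw [Finset.prod_const, Finset.card_range]
      rw [this, ← Finset.prod_mul_distrib, ← Finset.prod_mul_distrib]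
      apply Finset.prod_congr rfl
      intro t _
      ring
    · rw [Nat.cast_mul, Nat.cast_mul, Nat.cast_mul, ← e3, ← e4, ← e5]
      have : (((2 ^ b : ℕ)) : ℚ) = ∏ _t ∈ Finset.range b, (2 : ℚ) := by
        rw [Finset.prod_const, Finset.card_range]
        push_cast
        rfl
      rw [this, ← Finset.prod_mul_distrib, ← Finset.prod_mul_distrib, ← Finset.prod_mul_distrib]
  rw [hprod, ← mul_div_assoc]
  have hD1odd : ¬ 2 ∣ ∏ t ∈ Finset.range b, (2 * κ - 2 * w - 2 * t - 1) := by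
    rw [Prime.dvd_finsetProd_iff Nat.prime_two.prime]
    rintro ⟨t, ht, hd⟩
    have ht' := Finset.mem_range.1 ht
    omega
  have hD1ne : ∏ t ∈ Finset.range b, (2 * κ - 2 * w - 2 * t - 1) ≠ 0 := fun h0 =>
    hD1odd (h0 ▸ dvd_zero 2)
  have hD3ne : (κ - 2 * w - 1).descFactorial b ≠ 0 := by
    rw [Ne, Nat.descFactorial_eq_zero_iff_lt]
    omega
  have hval : padicValRat 2 (((2 ^ b * (∏ t ∈ Finset.range b, (2 * κ - 2 * w - 2 * t - 1)) * b ! *
        (κ - 2 * w - 1).descFactorial b : ℕ)) : ℚ) =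
      (b : ℤ) + padicValNat 2 (b !) + (h + padicValNat 2 ((w + 1).ascFactorial h)) := by
    rw [padicValRat.of_nat, padicValNat.mul (mul_ne_zero (mul_ne_zero (by positivity) hD1ne)
      (Nat.factorial_ne_zero b)) hD3ne, padicValNat.mul (mul_ne_zero (by positivity) hD1ne)
      (Nat.factorial_ne_zero b), padicValNat.mul (by positivity) hD1ne,
      padicValNat.eq_zero_of_not_dvd hD1odd, padicValNat.prime_pow,
      hκ, p3_val_desc m w b hb, ← hh]
    push_cast
    ring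
  apply VG.div_p3 (k := (b : ℤ) + padicValNat 2 (b !) +
    (h + padicValNat 2 ((w + 1).ascFactorial h))) _ _ hval.le
  · have hsplit : (w + 1).ascFactorial b =
        (w + 1).ascFactorial h * (w + 1 + h).ascFactorial (b - h) := by
      rw [Nat.ascFactorial_mul_ascFactorial]
      congr 1
      omega
    have v1 : VG (2 * (b : ℤ)) ((2 : ℚ) ^ (2 * (b : ℤ))) := VG_two_zpow _
    have v2 : VG 0 ((-1 : ℚ) ^ b) := by
      have := VG_int ((-1) ^ b)
      push_cast at this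
      exact this
    have v3 : VG (padicValNat 2 ((w + 1).ascFactorial h) : ℤ)
        ((((w + 1).ascFactorial h : ℕ)) : ℚ) := by
      right
      rw [padicValRat.of_nat]
    have v4 : VG 0 ((((w + 1 + h).ascFactorial (b - h) : ℕ)) : ℚ) := by
      have := VG_int (((w + 1 + h).ascFactorial (b - h) : ℕ) : ℤ)
      rwa [Int.cast_natCast] at this
    have v5 : VG (padicValNat 2 (b !) : ℤ) (((w.descFactorial b : ℕ)) : ℚ) := by
      obtain ⟨z, hz⟩ := Nat.factorial_dvd_descFactorial w b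
      rw [hz, Nat.cast_mul]
      have g1 : VG (padicValNat 2 (b !) : ℤ) ((b ! : ℕ) : ℚ) := by
        right
        rw [padicValRat.of_nat]
      have g2 : VG 0 ((z : ℕ) : ℚ) := by
        have := VG_int (z : ℤ)
        rwa [Int.cast_natCast] at this
      simpa using g1.mul g2
    have v6 := v1.mul ((v2.mul (v3.mul v4)).mul v5)
    rw [hsplit, Nat.cast_mul]
    refine v6.mono ?_
    have hbh : h ≤ b := by omega
    push_cast
    omega
  · exact_mod_cast mul_ne_zero (mul_ne_zero (mul_ne_zero (by positivity) hD1ne)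
      (Nat.factorial_ne_zero b)) hD3ne

theorem VG_UU_pow (ε : Bool) (m w j : ℕ) (hw : 1 ≤ w) (hwj : w < j) (h3 : 3 * w < 2 ^ m)
    (h2 : 2 * j < 2 ^ m) :
    VG 1 (2 ^ (2 * (j : ℤ) - 2 * w) * UU ε ((2 ^ m : ℕ) : ℚ) w j) := by
  obtain ⟨m', rfl⟩ : ∃ m', m = m' + 1 := by
    cases m with
    | zero => omega
    | succ m' => exact ⟨m', rfl⟩
  obtain ⟨b', rfl⟩ : ∃ b', j = w + (b' + 1) := ⟨j - w - 1, by omega⟩
  set κ := 2 ^ (m' + 1) with hκ
  have hG := p3_VG_G m' w (b' + 1) (by omega)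
  rw [← hκ] at hG
  have hX : (2 * (κ : ℚ) - 3 * w) ≠ 0 := by
    have h4 : (3 * w : ℚ) < κ := by exact_mod_cast h3
    have h5 : (0 : ℚ) ≤ κ := by positivity
    intro h
    linarith
  have hY : (2 * (κ : ℚ) - 3 * ((w + (b' + 1) : ℕ) : ℚ)) ≠ 0 := by
    have h4 : (2 * (w + (b' + 1) : ℕ) : ℚ) < κ := by exact_mod_cast h2
    have h5 : (0 : ℚ) ≤ κ := by positivity
    have h6 : (0 : ℚ) ≤ ((w + (b' + 1) : ℕ) : ℚ) := by positivity
    intro h
    linarith
  have hprod : ∏ v ∈ Finset.Ico w (w + (b' + 1)),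
    (-((v : ℚ) + 1) * (2 * w - v) * (2 * κ - 2 * w - v) /
      (2 * (2 * κ - 2 * v - 1) * (v - w + 1) * (κ - w - v - 1))) =
      (∏ t ∈ Finset.range (b' + 1),
      (-((w : ℚ) + t + 1) * (w - t) / (2 * (2 * (κ : ℚ) - 2 * w - 2 * t - 1) *
        (t + 1) * ((κ : ℚ) - 2 * w - 1 - t)))) *
      ∏ t ∈ Finset.range (b' + 1), (2 * (κ : ℚ) - 3 * w - t) := by
    rw [Finset.prod_Ico_eq_prod_range, Nat.add_sub_cancel_left, ← Finset.prod_mul_distrib]
    apply Finset.prod_congr rfl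
    intro t _
    rw [div_mul_eq_mul_div]
    congr 1
    · push_cast
      ring
    · push_cast
      ring
  have hint : ∀ t : ℕ, VG 0 (2 * (κ : ℚ) - 3 * w - t) := by
    intro t
    have := VG_int (2 * (κ : ℤ) - 3 * w - t)
    push_cast at this
    exact this
  have hR : ∃ R : ℚ, VG 0 R ∧ UU ε (κ : ℚ) w (w + (b' + 1)) =
      (∏ t ∈ Finset.range (b' + 1),
      (-((w : ℚ) + t + 1) * (w - t) / (2 * (2 * (κ : ℚ) - 2 * w - 2 * t - 1) *
        (t + 1) * ((κ : ℚ) - 2 * w - 1 - t)))) * R := by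
    have hmu : mu (κ : ℚ) w (w + (b' + 1)) = (2 * (κ : ℚ) - 3 * ((w + (b' + 1) : ℕ) : ℚ)) /
        (2 * κ - 3 * w) * (∏ v ∈ Finset.Ico w (w + (b' + 1)),
      (-((v : ℚ) + 1) * (2 * w - v) * (2 * κ - 2 * w - v) /
      (2 * (2 * κ - 2 * v - 1) * (v - w + 1) * (κ - w - v - 1)))) := by
      unfold mu
      rw [if_pos (Nat.le_add_right w (b' + 1))]
    cases ε with
    | true =>
      refine ⟨∏ t ∈ Finset.range (b' + 1), (2 * (κ : ℚ) - 3 * w - t),
        VG_prod _ _ fun t _ => hint t, ?_⟩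
      simp only [UU, if_true]
      rw [hmu, ← hprod]
      field_simp
    | false =>
      refine ⟨(2 * (κ : ℚ) - 3 * ((w + (b' + 1) : ℕ) : ℚ)) *
        ∏ t ∈ Finset.range b', (2 * (κ : ℚ) - 3 * w - ((t + 1 : ℕ) : ℚ)), ?_, ?_⟩
      · have g1 : VG 0 (2 * (κ : ℚ) - 3 * ((w + (b' + 1) : ℕ) : ℚ)) := by
          have := VG_int (2 * (κ : ℤ) - 3 * ((w + (b' + 1) : ℕ) : ℤ))
          push_cast at this ⊢
          exact this
        have g2 : VG 0 (∏ t ∈ Finset.range b', (2 * (κ : ℚ) - 3 * w - ((t + 1 : ℕ) : ℚ))) :=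
          VG_prod _ _ fun t _ => hint (t + 1)
        simpa using g1.mul g2
      · simp only [UU, Bool.false_eq_true, if_false]
        rw [hmu, hprod, Finset.prod_range_succ' (fun t : ℕ => (2 * (κ : ℚ) - 3 * w - (t : ℚ)))]
        rw [Nat.cast_zero, sub_zero]
        field_simp
  obtain ⟨R, hR0, hUU⟩ := hR
  have e1 : (2 * (((w + (b' + 1) : ℕ)) : ℤ) - 2 * w) = 2 * ((b' + 1 : ℕ) : ℤ) := by
    push_cast
    ring
  rw [e1, hUU, ← mul_assoc]
  refine (hG.mul hR0).mono ?_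
  have : (b' + 1) / 2 < b' + 1 := by omega
  push_cast
  omega

end Pool.Agent.Helper5.MD
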