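import Pool.Agent.Helper5.MD.VGBasic
import Pool.Agent.Helper5.MD.V3LI

/-!
# MP-P4 : the inverse of the lower triangular factor for `κ = 2^m`

Put `c = i - j`, `h = c / 2`.  `lamInv κ i j = ± (κ - j)(κ - 3 j) / ((κ - i)(κ - 3 i)) ∏_(t < c) (κ - i + t) (κ - i - t) (κ - 3 i + t) / (2 (2 v + 1) (t + 1) (κ - 2 i + 1 + t))`
(`v = i - 1 - t`).  With the prefactor: the numbers `κ - i + t`, `1 ≤ t ≤ c` and `κ - i - t`, `0 ≤ t < c`, and `κ - 3 i + t`, `1 ≤ t < c`, and `κ - 3 j`.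
Denominator: for `t` odd, `t = 2 u + 1 < c`: `κ - 2 i + 2 + 2 u = 2 (κ/2 - i + 1 + u)`, `v2 = 1 + v2 (i - 1 - u) = 1 + v2 (κ - i + 1 + u)` (`i - 1 - u > 0` because `j ≥ 1`), odd for `t` even;
so `v2 (denominator) = h + ∑_(u < h) v2 (κ - i + 1 + u)` cancels the first `h` of the numbers `κ - i + t`, `t ≥ 1`; the other factors are integral, and
`v2 (2^(2c) lamInv) ≥ 2 c - c - h ≥ 1`.
-/

open scoped Nat

namespace Pool.Agent.Helper5.MD

/-- `v2 (2^m - x) = v2 x` for `0 < x < 2^m`. -/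
theorem p4_val_sub (m x : ℕ) (h0 : 0 < x) (h : x < 2 ^ m) :
    padicValRat 2 ((2 : ℚ) ^ m - x) = padicValRat 2 (x : ℚ) := by
  have hx0 : (x : ℚ) ≠ 0 := by exact_mod_cast h0.ne'
  have h2 : (2 : ℚ) ^ m ≠ 0 := by positivity
  have hv : padicValRat 2 (x : ℚ) < padicValRat 2 ((2 : ℚ) ^ m) := by
    have h3 := padicValRat_two_zpow (m : ℤ)
    rw [zpow_natCast] at h3
    rw [h3, padicValRat.of_nat]
    have h4 : padicValNat 2 x < m := by
      have h5 : 2 ^ padicValNat 2 x ∣ x := pow_padicValNat_dvd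
      have h6 := Nat.le_of_dvd h0 h5
      exact (Nat.pow_lt_pow_iff_right (by norm_num)).1 (lt_of_le_of_lt h6 h)
    exact_mod_cast h4
  have hne : -(x : ℚ) + (2 : ℚ) ^ m ≠ 0 := by
    have : (x : ℚ) < (2 : ℚ) ^ m := by exact_mod_cast h
    linarith
  have h7 := padicValRat.add_eq_of_lt (p := 2) hne (neg_ne_zero.2 hx0) h2
    (by rw [padicValRat.neg]; exact hv)
  rw [padicValRat.neg] at h7
  rw [← h7]
  congr 1
  ring

/-- the inverse of an odd number -/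
theorem p4_VG_inv_odd (n : ℕ) (hn : n % 2 = 1) : VG 0 ((n : ℚ)⁻¹) := by
  right
  rw [padicValRat.inv, padicValRat.of_nat, padicValNat.eq_zero_of_not_dvd (by omega)]
  simp

/-- cancellation of the even factors of the denominator -/
theorem p4_key (m i : ℕ) (hi : 2 * i < 2 ^ m) : ∀ t : ℕ, t < i →
    VG (-((t / 2 : ℕ) : ℤ)) ((∏ a ∈ Finset.range (t / 2), ((2 : ℚ) ^ m - i + 1 + a)) /
      ∏ a ∈ Finset.range t, ((2 : ℚ) ^ m - 2 * i + 1 + a)) := by
  intro t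
  induction t with
  | zero =>
    intro _
    simpa using VG_int 1
  | succ t ih =>
    intro ht
    have ih' := ih (by omega)
    have hm : m ≠ 0 := by
      rintro rfl
      simp at hi
      omega
    obtain ⟨m', rfl⟩ : ∃ m', m = m' + 1 := ⟨m - 1, by omega⟩
    rcases Nat.even_or_odd' t with ⟨u, rfl | rfl⟩
    · -- `t` even, the new factor is odd
      have e1 : (2 * u + 1) / 2 = 2 * u / 2 := by omega
      rw [e1, Finset.prod_range_succ]
      have hnat : (((2 : ℚ) ^ (m' + 1) - 2 * i + 1 + ((2 * u : ℕ) : ℚ))) =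
          ((2 ^ (m' + 1) - 2 * i + 1 + 2 * u : ℕ) : ℚ) := by
        rw [Nat.cast_add, Nat.cast_add, Nat.cast_sub hi.le]
        push_cast
        ring
      have hodd : (2 ^ (m' + 1) - 2 * i + 1 + 2 * u) % 2 = 1 := by
        have : 2 ^ (m' + 1) = 2 * 2 ^ m' := by rw [pow_succ]; ring
        omega
      have h1 := ih'.mul (p4_VG_inv_odd _ hodd)
      rw [← hnat, add_zero] at h1
      rw [← div_div, div_eq_mul_inv _ ((2 : ℚ) ^ (m' + 1) - 2 * i + 1 + ((2 * u : ℕ) : ℚ))]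
      exact h1
    · -- `t` odd, the new factor cancels up to one factor of two
      have e1 : (2 * u + 1 + 1) / 2 = (2 * u + 1) / 2 + 1 := by omega
      have e2 : (2 * u + 1) / 2 = u := by omega
      rw [e1, Finset.prod_range_succ, Finset.prod_range_succ (n := 2 * u + 1)]
      rw [e2] at ih' ⊢
      obtain ⟨x, hx⟩ : ∃ x, i = u + 1 + x := ⟨i - (u + 1), by omega⟩
      have hx0 : 0 < x := by omega
      have hp : 2 ^ (m' + 1) = 2 * 2 ^ m' := by rw [pow_succ]; ring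
      have n1 : (2 : ℚ) ^ (m' + 1) - i + 1 + (u : ℚ) = (2 : ℚ) ^ (m' + 1) - x := by
        rw [hx]
        push_cast
        ring
      have n2 : (2 : ℚ) ^ (m' + 1) - 2 * i + 1 + ((2 * u + 1 : ℕ) : ℚ) =
          2 * ((2 : ℚ) ^ m' - x) := by
        rw [hx, pow_succ]
        push_cast
        ring
      have hlt1 : x < 2 ^ (m' + 1) := by omega
      have hlt2 : x < 2 ^ m' := by omega
      have v1 := p4_val_sub (m' + 1) x hx0 hlt1
      have v2 := p4_val_sub m' x hx0 hlt2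
      have z1 : (2 : ℚ) ^ (m' + 1) - x ≠ 0 := by
        have : (x : ℚ) < (2 : ℚ) ^ (m' + 1) := by exact_mod_cast hlt1
        linarith
      have z2 : (2 : ℚ) ^ m' - x ≠ 0 := by
        have : (x : ℚ) < (2 : ℚ) ^ m' := by exact_mod_cast hlt2
        linarith
      have hV : VG (-1) (((2 : ℚ) ^ (m' + 1) - x) / (2 * ((2 : ℚ) ^ m' - x))) := by
        right
        have h2 : padicValRat 2 (2 : ℚ) = 1 := by
          have := padicValRat.self (p := 2) (by norm_num)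
          simpa using this
        rw [padicValRat.div z1 (mul_ne_zero two_ne_zero z2),
          padicValRat.mul two_ne_zero z2, v1, v2, h2]
        omega
      have h1 := ih'.mul hV
      rw [n1, n2]
      have e3 : (-((u + 1 : ℕ) : ℤ)) = -((u : ℕ) : ℤ) + -1 := by push_cast; ring
      rw [e3, mul_div_mul_comm]
      exact h1

/-- the same with all the factors of the numerator -/
theorem p4_key' (m i t : ℕ) (hi : 2 * i < 2 ^ m) (ht : t < i) :
    VG (-((t / 2 : ℕ) : ℤ)) ((∏ a ∈ Finset.range t, ((2 : ℚ) ^ m - i + 1 + a)) /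
      ∏ a ∈ Finset.range t, ((2 : ℚ) ^ m - 2 * i + 1 + a)) := by
  have h1 := p4_key m i hi t ht
  have h2 : VG 0 (∏ a ∈ Finset.Ico (t / 2) t, ((2 : ℚ) ^ m - i + 1 + a)) := by
    apply VG_prod
    intro a _
    have := VG_int (((2 : ℤ) ^ m - i + 1 + a : ℤ))
    push_cast at this
    exact this
  have h3 := h2.mul h1
  rw [zero_add, ← mul_div_assoc, mul_comm (∏ a ∈ Finset.Ico (t / 2) t, ((2 : ℚ) ^ m - i + 1 + a)),
    Finset.prod_range_mul_prod_Ico _ (Nat.div_le_self t 2)] at h3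
  exact h3

/-- the conclusion from the exact identity -/
theorem p4_core (t : ℕ) (ht : 1 ≤ t) (q : ℚ) (z z' : ℤ) (O : ℕ) (hO : Odd O) (P1 D : ℚ)
    (hD : D ≠ 0) (hV : VG (-((t / 2 : ℕ) : ℤ)) (P1 / D))
    (hq : q * (2 ^ t * (O : ℚ) * D) = z * P1 * z') :
    VG 1 (2 ^ (2 * (t : ℤ)) * q) := by
  have hO0 : (O : ℚ) ≠ 0 := by
    have : O ≠ 0 := by rintro rfl; exact absurd hO (by decide)
    exact_mod_cast this
  have h2 : (2 : ℚ) ^ t ≠ 0 := by positivity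
  have h1 : (2 : ℚ) ^ (2 * (t : ℤ)) * q = 2 ^ (t : ℤ) * ((P1 / D) * ((O : ℚ)⁻¹ * (z * z'))) := by
    have h3 : q = z * P1 * z' / (2 ^ t * (O : ℚ) * D) := by
      rw [eq_div_iff (mul_ne_zero (mul_ne_zero h2 hO0) hD), hq]
    have h4 : (2 : ℚ) ^ (2 * (t : ℤ)) = 2 ^ t * 2 ^ t := by
      rw [two_mul, zpow_add₀ two_ne_zero, zpow_natCast]
    rw [h3, h4, zpow_natCast]
    field_simp
  rw [h1]
  have h5 : VG 0 ((O : ℚ)⁻¹) := by
    apply p4_VG_inv_odd
    obtain ⟨k, rfl⟩ := hO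
    omega
  have h6 : VG 0 ((z : ℚ) * z') := by simpa using (VG_int z).mul (VG_int z')
  have h7 := (VG_two_zpow (t : ℤ)).mul (hV.mul (h5.mul h6))
  refine h7.mono ?_
  omega

theorem VG_LI_pow (ε : Bool) (m i j : ℕ) (hj : 1 ≤ j) (hji : j < i) (h3 : 3 * i < 2 ^ m) :
    VG 1 (2 ^ (2 * (i : ℤ) - 2 * j) * LI ε ((2 ^ m : ℕ) : ℚ) i j) := by
  obtain ⟨t, rfl⟩ := Nat.exists_eq_add_of_le hji.le
  have ht1 : 1 ≤ t := by omega
  obtain ⟨c, hc⟩ : ∃ c, 2 ^ m = 3 * (j + t) + c + 1 := ⟨2 ^ m - 3 * (j + t) - 1, by omega⟩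
  have hP := lamInv_prod (2 ^ m) j t c hc
  have hO : Odd (∏ a ∈ Finset.range t, (2 * (j + (t - 1 - a)) + 1)) :=
    odd_prod _ _ fun a _ => ⟨j + (t - 1 - a), rfl⟩
  have h1 : ((2 ^ m : ℕ) : ℚ) = 3 * (j + t) + c + 1 := by rw [hc]; push_cast; ring
  have hX : ((2 ^ m : ℕ) : ℚ) - 3 * ((j + t : ℕ) : ℚ) = (c : ℚ) + 1 := by
    rw [h1]; push_cast; ring
  have hX0 : (c : ℚ) + 1 ≠ 0 := by positivity
  have hY : ((2 ^ m : ℕ) : ℚ) - 3 * j = (c : ℚ) + 1 + 3 * t := by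
    rw [h1]; ring
  have hY0 : (c : ℚ) + 1 + 3 * t ≠ 0 := by positivity
  -- the products
  have hi2 : 2 * (j + t) < 2 ^ m := by omega
  have hK := p4_key' m (j + t) t hi2 (by omega)
  set P1 : ℚ := ∏ a ∈ Finset.range t, ((2 : ℚ) ^ m - ((j + t : ℕ) : ℚ) + 1 + a) with hP1
  set D : ℚ := ∏ a ∈ Finset.range t, ((2 : ℚ) ^ m - 2 * ((j + t : ℕ) : ℚ) + 1 + a) with hD
  have h1' : (2 : ℚ) ^ m = 3 * (j + t) + c + 1 := by
    rw [← h1]
    push_cast
    ring
  have hD1 : ((t ! : ℕ) : ℚ) * ((j + t + c + 1 + t).choose t : ℕ) = D := by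
    rw [← prod_asc, hD]
    refine Finset.prod_congr rfl fun a _ => ?_
    rw [h1']
    push_cast
    ring
  have hD0 : D ≠ 0 := by
    rw [← hD1]
    have h5 : 0 < (j + t + c + 1 + t).choose t := Nat.choose_pos (by omega)
    have h6 : 0 < t ! := Nat.factorial_pos t
    positivity
  have hN : (((2 * t)! : ℕ) : ℚ) * ((2 * j + 2 * t + c + 1 + t).choose (2 * t) : ℕ) =
      P1 * (((t ! : ℕ) : ℚ) * ((2 * j + 2 * t + c + 1).choose t : ℕ)) := by
    rw [← prod_sym, ← prod_desc, Finset.prod_mul_distrib, hP1]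
    congr 1
    refine Finset.prod_congr rfl fun a _ => ?_
    rw [h1']
    push_cast
    ring
  rw [hD1, mul_assoc (((-1) ^ t : ℤ) : ℚ), hN] at hP
  set Q := ∏ v ∈ Finset.Ico j (j + t),
    (-(((2 ^ m : ℕ) : ℚ) - v - 1) * (((2 ^ m : ℕ) : ℚ) - 2 * ((j + t : ℕ) : ℚ) + v + 1) *
      (((2 ^ m : ℕ) : ℚ) - 2 * ((j + t : ℕ) : ℚ) - v - 1) /
      (2 * (2 * v + 1) * (((j + t : ℕ) : ℚ) - v) *
        (((2 ^ m : ℕ) : ℚ) - v - ((j + t : ℕ) : ℚ)))) with hQ
  have hlam : lamInv ((2 ^ m : ℕ) : ℚ) (j + t) j =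
      (((2 ^ m : ℕ) : ℚ) - j) / (((2 ^ m : ℕ) : ℚ) - ((j + t : ℕ) : ℚ)) * Q *
      (((c : ℚ) + 1 + 3 * t) / (c + 1)) := by
    unfold lamInv
    rw [if_pos (Nat.le_add_right j t), hX, hY, ← hQ, mul_right_comm _ Q, div_mul_div_comm]
  have hexp : 2 * (((j + t : ℕ) : ℤ)) - 2 * (j : ℤ) = 2 * (t : ℤ) := by push_cast; ring
  have hf : ((t ! : ℕ) : ℚ) ≠ 0 := by exact_mod_cast (Nat.factorial_pos t).ne'
  rw [hexp]
  cases ε with
  | true =>
    refine p4_core t ht1 _ (((-1) ^ t * (t ! : ℕ)) * ((2 * j + 2 * t + c + 1).choose t : ℕ))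
      ((c + t).choose t : ℕ) _ hO P1 D hD0 hK ?_
    simp only [LI, if_true]
    have h7 : lamInv ((2 ^ m : ℕ) : ℚ) (j + t) j * ((((2 ^ m : ℕ) : ℚ) - 3 * ((j + t : ℕ) : ℚ)) /
        (((2 ^ m : ℕ) : ℚ) - 3 * j)) =
        (((2 ^ m : ℕ) : ℚ) - j) / (((2 ^ m : ℕ) : ℚ) - ((j + t : ℕ) : ℚ)) * Q := by
      rw [hlam, hX, hY, mul_assoc, div_mul_div_comm, mul_comm ((c : ℚ) + 1 + 3 * t) _, div_self
        (mul_ne_zero hX0 hY0), mul_one]
    rw [h7]
    apply mul_right_cancel₀ hf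
    push_cast at hP ⊢
    linear_combination hP
  | false =>
    obtain ⟨z, hz⟩ := frac_int (c + 1 + t) t (by omega) 2
    refine p4_core t ht1 _ (((-1) ^ t * (t ! : ℕ)) * ((2 * j + 2 * t + c + 1).choose t : ℕ))
      z _ hO P1 D hD0 hK ?_
    simp only [LI, Bool.false_eq_true, if_false]
    have h3 := ch_shift c t
    have h4 : (((c + t).choose t : ℕ) : ℚ) * (((c : ℚ) + 1 + 3 * t) / (c + 1)) = z := by
      rw [← hz]
      have h5 : (((c + t).choose t : ℕ) : ℚ) * (((c : ℚ) + 1 + 3 * t) / (c + 1)) =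
        (((c + t).choose t : ℕ) : ℚ) / (c + 1) * ((c : ℚ) + 1 + 3 * t) := by ring
      rw [h5, h3]
      push_cast
      ring
    rw [hlam, ← h4]
    apply mul_right_cancel₀ hf
    push_cast at hP ⊢
    linear_combination (((c : ℚ) + 1 + 3 * t) / (c + 1)) * hP

end Pool.Agent.Helper5.MD
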