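import Pool.Agent.Helper5.MD.VGBasic

/-!
# MP-P5 : the inverse of the upper triangular factor for `κ = 2^m`

Put `c = s - j`, `h = c / 2`.  `muInv κ j s = ∏_(t < c) (s - 1 - t) (s + t) (2 κ - 3 s + t) / (2 (odd) (t + 1) (κ - 2 s + 1 + t))` (`v = s - 1 - t`).
Denominator: `t = 2 u + 1 < c`: `κ - 2 s + 2 + 2 u = 2 (κ/2 - s + 1 + u)`, `v2 = 1 + v2 (s - 1 - u)` (`s - 1 - u > 0`), odd for `t` even; it cancels the first `h` of the numbers `s - 1 - t`;
the other `c - h` are divisible by `(c-h)!`, `s + t` by `c!`, `2 κ - 3 s + t` (`0 ≤ t < c`) by `c!`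
(for `ε = true`: `1 ≤ t < c`, by `(c-1)!`).  Total `v2 (2^(2c) muInv) ≥ c - h ≥ 1`.
-/

open scoped Nat

namespace Pool.Agent.Helper5.MD

namespace MuInvPow

/-- the product of the odd numbers of the denominator -/
def oddProd (κ s c : ℕ) : ℕ := ∏ t ∈ Finset.range c, (2 * κ - 2 * (s - 1 - t) - 1)

theorem oddProd_val (κ s c : ℕ) (h : s ≤ κ) (hs : 1 ≤ s) : padicValNat 2 (oddProd κ s c) = 0 := by
  apply padicValNat.eq_zero_of_not_dvd
  rw [oddProd, Prime.dvd_finsetProd_iff Nat.prime_two.prime]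
  rintro ⟨t, -, ht⟩
  omega

theorem oddProd_pos (κ s c : ℕ) (h : s ≤ κ) (hs : 1 ≤ s) : oddProd κ s c ≠ 0 := by
  rw [oddProd, Finset.prod_ne_zero_iff]
  intro t _
  omega

theorem muInv_eq (κ j c : ℕ) (hj : 1 ≤ j) (h3 : 3 * (j + c) < κ) :
    muInv (κ : ℚ) j (j + c) =
      (((j + c - 1).descFactorial c * (j + c).ascFactorial c *
        (2 * κ - 3 * (j + c)).ascFactorial c : ℕ) : ℚ) /
      ((2 ^ c * oddProd κ (j + c) c * c ! * (κ - 2 * (j + c) + 1).ascFactorial c : ℕ) : ℚ) := by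
  have e1 : muInv (κ : ℚ) j (j + c) = ∏ t ∈ Finset.range c,
      (((((j + c - 1 - t) * (j + c + t) * (2 * κ - 3 * (j + c) + t) : ℕ)) : ℚ) /
        ((2 * (2 * κ - 2 * (j + c - 1 - t) - 1) * (t + 1) *
          (κ - 2 * (j + c) + 1 + t) : ℕ) : ℚ)) := by
    rw [muInv, if_pos (by omega), Finset.prod_Ico_eq_prod_range, ← Finset.prod_range_reflect]
    have : j + c - j = c := by omega
    rw [this]
    apply Finset.prod_congr rfl
    intro t ht
    have ht' : t < c := Finset.mem_range.mp ht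
    obtain ⟨r, hr⟩ : ∃ r, c = t + 1 + r := ⟨c - (t + 1), by omega⟩
    have a1 : j + (c - 1 - t) = j + r := by omega
    have a2 : j + c - 1 - t = j + r := by omega
    obtain ⟨y, hy⟩ : ∃ y, κ = 3 * (j + c) + y := ⟨κ - 3 * (j + c), by omega⟩
    have a3 : 2 * κ - 3 * (j + c) + t = 3 * (j + c) + 2 * y + t := by omega
    have a4 : κ - 2 * (j + c) + 1 + t = (j + c) + y + 1 + t := by omega
    have a5 : 2 * κ - 2 * (j + r) - 1 = 4 * (j + c) + 2 * y + 2 * (t + 1) - 1 := by omega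
    have a6 : ((4 * (j + c) + 2 * y + 2 * (t + 1) - 1 : ℕ) : ℚ) =
        4 * (j + c) + 2 * y + 2 * (t + 1) - 1 := by
      rw [Nat.cast_sub (by omega)]
      push_cast
      ring
    rw [a1, a2, a3, a4, a5, Nat.cast_mul, Nat.cast_mul, Nat.cast_mul (_ * _) (_), Nat.cast_mul (_ * _) (_), Nat.cast_mul 2 _,
      a6, hy, hr]
    push_cast
    congr 1 <;> ring
  rw [e1, Finset.prod_div_distrib, ← Nat.cast_prod, ← Nat.cast_prod]
  congr 2
  · rw [Finset.prod_mul_distrib, Finset.prod_mul_distrib, Nat.descFactorial_eq_prod_range,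
      Nat.ascFactorial_eq_prod_range, Nat.ascFactorial_eq_prod_range]
  · rw [Finset.prod_mul_distrib, Finset.prod_mul_distrib, Finset.prod_mul_distrib,
      Finset.prod_const, Finset.card_range, Finset.prod_range_add_one_eq_factorial,
      Nat.ascFactorial_eq_prod_range, oddProd]

/-- the valuation of `2^m - x` -/
theorem val_sub (n x : ℕ) (hx : 1 ≤ x) (hxn : x < 2 ^ n) :
    padicValNat 2 (2 ^ n - x) = padicValNat 2 x := by
  have hx0 : x ≠ 0 := by omega
  have hy0 : 2 ^ n - x ≠ 0 := by omega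
  apply le_antisymm
  · rw [← padicValNat_dvd_iff_le hx0]
    have h1 : 2 ^ padicValNat 2 (2 ^ n - x) ∣ 2 ^ n - x := pow_padicValNat_dvd
    have h2 : padicValNat 2 (2 ^ n - x) ≤ n := by
      by_contra hlt
      have := Nat.le_of_dvd (by omega) ((pow_dvd_pow 2 (not_le.mp hlt).le).trans h1)
      omega
    have h3 : 2 ^ padicValNat 2 (2 ^ n - x) ∣ 2 ^ n := pow_dvd_pow 2 h2
    have := (Nat.dvd_sub h3 h1)
    have e : 2 ^ n - (2 ^ n - x) = x := by omega
    rwa [e] at this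
  · rw [← padicValNat_dvd_iff_le hy0]
    have h1 : 2 ^ padicValNat 2 x ∣ x := pow_padicValNat_dvd
    have h2 : padicValNat 2 x ≤ n := by
      by_contra hlt
      have := Nat.le_of_dvd (by omega) ((pow_dvd_pow 2 (not_le.mp hlt).le).trans h1)
      omega
    exact Nat.dvd_sub (pow_dvd_pow 2 h2) h1

/-- the valuation of the denominator -/
theorem val_den (m s : ℕ) (h3 : 3 * s < 2 ^ m) (hs : 1 ≤ s) (c : ℕ) (hc : c < s) :
    padicValNat 2 ((2 ^ m - 2 * s + 1).ascFactorial c) =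
      c / 2 + padicValNat 2 ((s - 1).descFactorial (c / 2)) := by
  obtain ⟨n, rfl⟩ : ∃ n, m = n + 1 := by
    rcases m with _ | n
    · omega
    · exact ⟨n, rfl⟩
  induction c with
  | zero => simp
  | succ c ih =>
    have ih' := ih (by omega)
    rw [Nat.ascFactorial_succ, padicValNat.mul (by omega) (Nat.ascFactorial_pos _ _).ne', ih']
    rcases Nat.even_or_odd' c with ⟨u, rfl | rfl⟩
    · have a1 : (2 * u + 1) / 2 = u := by omega
      have a2 : 2 * u / 2 = u := by omega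
      have a3 : padicValNat 2 (2 ^ (n + 1) - 2 * s + 1 + 2 * u) = 0 := by
        apply padicValNat.eq_zero_of_not_dvd
        rw [pow_succ] at h3 ⊢
        omega
      rw [a1, a2, a3, zero_add]
    · have a1 : (2 * u + 1 + 1) / 2 = u + 1 := by omega
      have a2 : (2 * u + 1) / 2 = u := by omega
      have a3 : 2 ^ (n + 1) - 2 * s + 1 + (2 * u + 1) = 2 * (2 ^ n - (s - 1 - u)) := by
        rw [pow_succ] at h3 ⊢
        omega
      have a4 : padicValNat 2 (2 * (2 ^ n - (s - 1 - u))) = 1 + padicValNat 2 (s - 1 - u) := by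
        rw [padicValNat.mul (by norm_num) (by rw [pow_succ] at h3; omega), padicValNat_self,
          val_sub n _ (by omega) (by rw [pow_succ] at h3; omega)]
      rw [a1, a2, a3, a4, Nat.descFactorial_succ, padicValNat.mul (by omega)
        (Nat.descFactorial_pos.mpr (by omega)).ne']
      omega

theorem final (m j c : ℕ) (hj : 1 ≤ j) (hc : 1 ≤ c) (h3 : 3 * (j + c) < 2 ^ m) (N : ℕ)
    (hN : N ≠ 0) :
    VG 1 (2 ^ (2 * ((j + c : ℕ) : ℤ) - 2 * j) *
      ((((j + c - 1).descFactorial c * (j + c).ascFactorial c * N : ℕ) : ℚ) /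
      ((2 ^ c * oddProd (2 ^ m) (j + c) c * c ! *
        (2 ^ m - 2 * (j + c) + 1).ascFactorial c : ℕ) : ℚ))) := by
  right
  have hA : (j + c - 1).descFactorial c ≠ 0 := (Nat.descFactorial_pos.mpr (by omega)).ne'
  have hB : (j + c).ascFactorial c ≠ 0 := by
    obtain ⟨k, hk⟩ : ∃ k, j + c = k + 1 := ⟨j + c - 1, by omega⟩
    rw [hk]
    exact (Nat.ascFactorial_pos _ _).ne'
  have hD : (2 ^ m - 2 * (j + c) + 1).ascFactorial c ≠ 0 := (Nat.ascFactorial_pos _ _).ne'
  have hO : oddProd (2 ^ m) (j + c) c ≠ 0 := oddProd_pos _ _ _ (by omega) (by omega)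
  have hF : c ! ≠ 0 := Nat.factorial_ne_zero c
  have h2c : (2 : ℕ) ^ c ≠ 0 := by positivity
  have hnum : ((j + c - 1).descFactorial c * (j + c).ascFactorial c * N : ℕ) ≠ 0 :=
    mul_ne_zero (mul_ne_zero hA hB) hN
  have hden : (2 ^ c * oddProd (2 ^ m) (j + c) c * c ! *
        (2 ^ m - 2 * (j + c) + 1).ascFactorial c : ℕ) ≠ 0 :=
    mul_ne_zero (mul_ne_zero (mul_ne_zero h2c hO) hF) hD
  rw [padicValRat.mul (by positivity) (div_ne_zero (by exact_mod_cast hnum)
    (by exact_mod_cast hden)), padicValRat_two_zpow, padicValRat.div (by exact_mod_cast hnum)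
    (by exact_mod_cast hden), padicValRat.of_nat, padicValRat.of_nat,
    padicValNat.mul (mul_ne_zero hA hB) hN, padicValNat.mul hA hB,
    padicValNat.mul (mul_ne_zero (mul_ne_zero h2c hO) hF) hD,
    padicValNat.mul (mul_ne_zero h2c hO) hF, padicValNat.mul h2c hO,
    oddProd_val _ _ _ (by omega) (by omega), padicValNat.prime_pow,
    val_den m (j + c) h3 (by omega) c (by omega)]
  have hB' : padicValNat 2 (c !) ≤ padicValNat 2 ((j + c).ascFactorial c) := by
    rw [← padicValNat_dvd_iff_le hB]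
    exact pow_padicValNat_dvd.trans (Nat.factorial_dvd_ascFactorial _ _)
  have hA' : padicValNat 2 ((j + c - 1).descFactorial (c / 2)) ≤
      padicValNat 2 ((j + c - 1).descFactorial c) := by
    rw [← padicValNat_dvd_iff_le hA]
    refine pow_padicValNat_dvd.trans ?_
    rw [← Nat.descFactorial_mul_descFactorial (show c / 2 ≤ c by omega)]
    exact dvd_mul_left _ _
  omega

end MuInvPow

open MuInvPow in
theorem VG_UI_pow (ε : Bool) (m j s : ℕ) (hj : 1 ≤ j) (hjs : j < s) (h3 : 3 * s < 2 ^ m) :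
    VG 1 (2 ^ (2 * (s : ℤ) - 2 * j) * UI ε ((2 ^ m : ℕ) : ℚ) j s) := by
  obtain ⟨c, rfl⟩ : ∃ c, s = j + c := ⟨s - j, by omega⟩
  have hc : 1 ≤ c := by omega
  cases ε with
  | false =>
    have e : UI false ((2 ^ m : ℕ) : ℚ) j (j + c) = muInv ((2 ^ m : ℕ) : ℚ) j (j + c) := by
      simp [UI]
    rw [e, muInv_eq _ j c hj h3]
    refine final m j c hj hc h3 _ ?_
    obtain ⟨k, hk⟩ : ∃ k, 2 * 2 ^ m - 3 * (j + c) = k + 1 :=
      ⟨2 * 2 ^ m - 3 * (j + c) - 1, by omega⟩
    rw [hk]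
    exact (Nat.ascFactorial_pos _ _).ne'
  | true =>
    have e : UI true ((2 ^ m : ℕ) : ℚ) j (j + c) = muInv ((2 ^ m : ℕ) : ℚ) j (j + c) *
        ((2 * ((2 ^ m : ℕ) : ℚ) - 3 * j) / (2 * ((2 ^ m : ℕ) : ℚ) - 3 * ((j + c : ℕ) : ℚ))) := by
      simp [UI]
    obtain ⟨b, rfl⟩ : ∃ b, c = b + 1 := ⟨c - 1, by omega⟩
    obtain ⟨k, hk⟩ : ∃ k, 2 * 2 ^ m - 3 * (j + (b + 1)) = k + 1 :=
      ⟨2 * 2 ^ m - 3 * (j + (b + 1)) - 1, by omega⟩
    have hC : (2 * 2 ^ m - 3 * (j + (b + 1))).ascFactorial (b + 1) =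
        (2 * 2 ^ m - 3 * (j + (b + 1))) * (k + 1 + 1).ascFactorial b := by
      rw [hk, Nat.ascFactorial_eq_prod_range, Finset.prod_range_succ', Nat.ascFactorial_eq_prod_range,
        mul_comm]
      congr 1
      apply Finset.prod_congr rfl
      intro i _
      ring
    have q1 : (2 * ((2 ^ m : ℕ) : ℚ) - 3 * j) = ((2 * 2 ^ m - 3 * j : ℕ) : ℚ) := by
      rw [Nat.cast_sub (by omega)]; push_cast; ring
    have q2 : (2 * ((2 ^ m : ℕ) : ℚ) - 3 * ((j + (b + 1) : ℕ) : ℚ)) =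
        ((2 * 2 ^ m - 3 * (j + (b + 1)) : ℕ) : ℚ) := by
      rw [Nat.cast_sub (by omega)]; push_cast; ring
    have hne : ((2 * 2 ^ m - 3 * (j + (b + 1)) : ℕ) : ℚ) ≠ 0 := by
      rw [hk]; positivity
    have key := final m j (b + 1) hj hc h3
      ((k + 1 + 1).ascFactorial b * (2 * 2 ^ m - 3 * j))
      (mul_ne_zero (Nat.ascFactorial_pos _ _).ne' (by omega))
    have e2 : UI true ((2 ^ m : ℕ) : ℚ) j (j + (b + 1)) =
      ((((j + (b + 1) - 1).descFactorial (b + 1) * (j + (b + 1)).ascFactorial (b + 1) *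
        ((k + 1 + 1).ascFactorial b * (2 * 2 ^ m - 3 * j)) : ℕ) : ℚ) /
      ((2 ^ (b + 1) * oddProd (2 ^ m) (j + (b + 1)) (b + 1) * (b + 1) ! *
        (2 ^ m - 2 * (j + (b + 1)) + 1).ascFactorial (b + 1) : ℕ) : ℚ)) := by
      rw [e, muInv_eq _ j (b + 1) hj h3, q1, q2, hC, div_mul_div_comm, div_eq_div_iff]
      · push_cast
        ring
      · refine mul_ne_zero ?_ hne
        exact_mod_cast mul_ne_zero (mul_ne_zero (mul_ne_zero (by positivity)
          (oddProd_pos _ _ _ (by omega) (by omega))) (Nat.factorial_ne_zero _))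
          (Nat.ascFactorial_pos _ _).ne'
      · exact_mod_cast mul_ne_zero (mul_ne_zero (mul_ne_zero (by positivity)
          (oddProd_pos _ _ _ (by omega) (by omega))) (Nat.factorial_ne_zero _))
          (Nat.ascFactorial_pos _ _).ne'
    rw [e2]
    exact key

end Pool.Agent.Helper5.MD
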