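import Pool.Agent.Helper5.MD.V5Pivot

/-!
# MP-P6 : the pivots for `κ = 2^m`

`v2 (PS false κ 1) = v2 (8 (3 - 2 κ)) = 3`, `v2 (PS true κ 1) = v2 (16 (3 - κ)) = 4`.  The ratio of `pv κ (w+1)` and `pv κ w` has valuation
`v2 ((κ-3w)(κ-3w-1)(κ-3w-2)(2κ-3w-1)(2κ-3w-2)(2κ-3w-3)) - 2 - v2 ((κ-2w)(κ-2w-1)^2(κ-2w-2))` and for `κ = 2^m`, `3 (w+1) < κ`, `v2 (κ - y) = v2 y` (`0 < y < κ`),
`v2 (2κ - y) = v2 y` (`0 < y < 2 κ`): it is `v2 w + 2 v2 (3w+1) + 2 v2 (3w+2) + v2 (w+1) - 2 - (1 + v2 w) - (1 + v2 (w+1)) = 2 v2 ((3w+1)(3w+2)) - 4`.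
So `v2 (PS (w+1)) = v2 (PS w) + 2 v2 ((3w+1)(3w+2))`, and `(3w+3)! / (w+1)! = 3 (3w+1)(3w+2) (3w)! / w!`.  For `ε = true`: `PP = pv * (6w - 2κ)/(3w - 2κ)`, the factor has valuation
`1 + v2 w - v2 w = 1`.
-/

open scoped Nat

namespace Pool.Agent.Helper5.MD

private theorem p6_sub (m y : ℕ) (hy : 0 < y) (h : y < 2 ^ m) :
    padicValNat 2 (2 ^ m - y) = padicValNat 2 y := by
  obtain ⟨a, b, hb, rfl⟩ := Nat.exists_eq_two_pow_mul_odd hy.ne'
  have hb0 : 0 < b := hb.pos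
  have ham : a < m := by
    by_contra hcon
    have h1 : 2 ^ m ≤ 2 ^ a := Nat.pow_le_pow_right (by norm_num) (by omega)
    have h2 : 2 ^ a * 1 ≤ 2 ^ a * b := Nat.mul_le_mul_left _ hb0
    omega
  obtain ⟨d, rfl⟩ : ∃ d, m = a + (d + 1) := ⟨m - a - 1, by omega⟩
  have hlt : b < 2 ^ (d + 1) := by
    rw [pow_add] at h
    exact Nat.lt_of_mul_lt_mul_left h
  have e : 2 ^ (a + (d + 1)) - 2 ^ a * b = 2 ^ a * (2 ^ (d + 1) - b) := by
    rw [pow_add, Nat.mul_sub]
  have hodd : Odd (2 ^ (d + 1) - b) := by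
    obtain ⟨c, hc⟩ := hb
    refine ⟨2 ^ d - c - 1, ?_⟩
    have h3 : 2 ^ (d + 1) = 2 * 2 ^ d := by rw [pow_succ]; ring
    omega
  have hv : ∀ c : ℕ, Odd c → padicValNat 2 (2 ^ a * c) = a := by
    intro c hc
    rw [padicValNat.mul (by positivity) hc.pos.ne', padicValNat.prime_pow,
      padicValNat.eq_zero_of_not_dvd (fun hd => (Nat.not_even_iff_odd.2 hc)
        (even_iff_two_dvd.2 hd)), add_zero]
  rw [e, hv _ hodd, hv _ hb]

private theorem p6_vf2 : padicValNat 2 (2 !) = 1 := by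
  rw [Nat.factorial_two]
  exact padicValNat_self

private theorem p6_three : padicValNat 2 3 = 0 :=
  padicValNat.eq_zero_of_not_dvd (by norm_num)

private theorem p6_vf3 : padicValNat 2 (3 !) = 1 := by
  rw [Nat.factorial_succ, padicValNat.mul (by norm_num) (Nat.factorial_ne_zero _), p6_vf2,
    p6_three]

private theorem p6_C2 (n : ℕ) (h : 2 ≤ n) :
    vC n 2 + 1 = padicValNat 2 n + padicValNat 2 (n - 1) := by
  have h1 : n.descFactorial 2 = n * (n - 1) := by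
    rw [Nat.descFactorial_succ, Nat.descFactorial_succ, Nat.descFactorial_zero, mul_one,
      Nat.sub_zero, mul_comm]
  have h2 := Nat.descFactorial_eq_factorial_mul_choose n 2
  rw [h1] at h2
  have h3 := congrArg (padicValNat 2) h2
  rw [padicValNat.mul (by omega) (by omega), padicValNat.mul (Nat.factorial_ne_zero _)
    (Nat.choose_pos h).ne', p6_vf2] at h3
  unfold vC
  omega

private theorem p6_C3 (n : ℕ) (h : 3 ≤ n) :
    vC n 3 + 1 = padicValNat 2 n + padicValNat 2 (n - 1) + padicValNat 2 (n - 2) := by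
  have h1 : n.descFactorial 3 = n * (n - 1) * (n - 2) := by
    rw [Nat.descFactorial_succ, Nat.descFactorial_succ, Nat.descFactorial_succ,
      Nat.descFactorial_zero, mul_one, Nat.sub_zero]
    ring
  have h2 := Nat.descFactorial_eq_factorial_mul_choose n 3
  rw [h1] at h2
  have h3 := congrArg (padicValNat 2) h2
  rw [padicValNat.mul (mul_ne_zero (by omega) (by omega)) (by omega),
    padicValNat.mul (by omega) (by omega), padicValNat.mul (Nat.factorial_ne_zero _)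
    (Nat.choose_pos h).ne', p6_vf3] at h3
  unfold vC
  omega

private theorem p6_two_mul (x : ℕ) (hx : 0 < x) : padicValNat 2 (2 * x) = 1 + padicValNat 2 x := by
  rw [padicValNat.mul (by norm_num) hx.ne', padicValNat_self]

private theorem p6_three_mul (x : ℕ) (hx : 0 < x) : padicValNat 2 (3 * x) = padicValNat 2 x := by
  rw [padicValNat.mul (by norm_num) hx.ne', p6_three, zero_add]

private theorem p6_odd (x : ℕ) : padicValNat 2 (2 * x + 1) = 0 :=
  padicValNat.eq_zero_of_not_dvd (by omega)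

/-- the step -/
private theorem p6_step (ε : Bool) (m w : ℕ) (hw : 1 ≤ w) (h : 3 * (w + 1) < 2 ^ m) :
    padicValRat 2 (PS ε ((2 ^ m : ℕ) : ℚ) (w + 1)) =
      padicValRat 2 (PS ε ((2 ^ m : ℕ) : ℚ) w) +
        2 * (padicValNat 2 (3 * w + 1) + padicValNat 2 (3 * w + 2) : ℕ) := by
  have hm := padicVal_PS ε (2 ^ m) w 1 hw h
  have hp : (2 : ℕ) ^ (m + 1) = 2 * 2 ^ m := by rw [pow_succ]; ring
  have s1 : ∀ y, 0 < y → y < 2 ^ m → padicValNat 2 (2 ^ m - y) = padicValNat 2 y :=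
    fun y h1 h2 => p6_sub m y h1 h2
  have s2 : ∀ y, 0 < y → y < 2 * 2 ^ m → padicValNat 2 (2 * 2 ^ m - y) = padicValNat 2 y := by
    intro y h1 h2
    rw [← hp]
    exact p6_sub (m + 1) y h1 (by rw [hp]; exact h2)
  have c1 := p6_C2 (2 ^ m - 2 * w) (by omega)
  have c2 := p6_C2 (2 ^ m - 2 * w - 1) (by omega)
  have k1 : 2 ^ m - 2 * w - 1 = 2 ^ m - (2 * w + 1) := by omega
  have k2 : 2 ^ m - 2 * w - 1 - 1 = 2 ^ m - 2 * (w + 1) := by omega
  rw [k1, s1 _ (by omega) (by omega), s1 _ (by omega) (by omega), p6_odd,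
    p6_two_mul _ (by omega)] at c1
  rw [k2, k1, s1 _ (by omega) (by omega), s1 _ (by omega) (by omega), p6_odd,
    p6_two_mul _ (by omega)] at c2
  have he : eta ε (2 ^ m) w 1 + 2 = padicValNat 2 w + padicValNat 2 (w + 1) +
      2 * (padicValNat 2 (3 * w + 1) + padicValNat 2 (3 * w + 2)) := by
    have t1 : 3 * w + 3 = 3 * (w + 1) := by ring
    cases ε
    · have e1 := p6_C3 (2 ^ m - 3 * w) (by omega)
      have e2 := p6_C3 (2 * 2 ^ m - 3 * w - 1) (by omega)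
      have r1 : 2 ^ m - 3 * w - 1 = 2 ^ m - (3 * w + 1) := by omega
      have r2 : 2 ^ m - 3 * w - 2 = 2 ^ m - (3 * w + 2) := by omega
      have r3 : 2 * 2 ^ m - 3 * w - 1 = 2 * 2 ^ m - (3 * w + 1) := by omega
      have r4 : 2 * 2 ^ m - (3 * w + 1) - 1 = 2 * 2 ^ m - (3 * w + 2) := by omega
      have r5 : 2 * 2 ^ m - (3 * w + 1) - 2 = 2 * 2 ^ m - (3 * w + 3) := by omega
      rw [r1, r2, s1 _ (by omega) (by omega), s1 _ (by omega) (by omega),
        s1 _ (by omega) (by omega), p6_three_mul _ (by omega)] at e1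
      rw [r3, r4, r5, s2 _ (by omega) (by omega), s2 _ (by omega) (by omega),
        s2 _ (by omega) (by omega), t1, p6_three_mul _ (by omega)] at e2
      unfold eta
      simp only [Bool.false_eq_true, if_false, mul_one]
      rw [r3]
      omega
    · have e1 := p6_C3 (2 ^ m - 3 * w - 1) (by omega)
      have e2 := p6_C3 (2 * 2 ^ m - 3 * w) (by omega)
      have r1 : 2 * 2 ^ m - 3 * w - 1 = 2 * 2 ^ m - (3 * w + 1) := by omega
      have r2 : 2 * 2 ^ m - 3 * w - 2 = 2 * 2 ^ m - (3 * w + 2) := by omega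
      have r3 : 2 ^ m - 3 * w - 1 = 2 ^ m - (3 * w + 1) := by omega
      have r4 : 2 ^ m - (3 * w + 1) - 1 = 2 ^ m - (3 * w + 2) := by omega
      have r5 : 2 ^ m - (3 * w + 1) - 2 = 2 ^ m - (3 * w + 3) := by omega
      rw [r3, r4, r5, s1 _ (by omega) (by omega), s1 _ (by omega) (by omega),
        s1 _ (by omega) (by omega), t1, p6_three_mul _ (by omega)] at e1
      rw [r1, r2, s2 _ (by omega) (by omega), s2 _ (by omega) (by omega),
        s2 _ (by omega) (by omega), p6_three_mul _ (by omega)] at e2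
      unfold eta
      simp only [if_true, mul_one]
      rw [r3]
      omega
  have f2 : vf (2 * 1) = 1 := p6_vf2
  have f3 : vf (3 * 1) = 1 := p6_vf3
  have k3 : 2 ^ m - 2 * w - 1 = 2 ^ m - (2 * w + 1) := by omega
  rw [f2, f3] at hm
  simp only [mul_one] at hm
  rw [k3] at hm
  push_cast at hm ⊢
  have c1' : (vC (2 ^ m - 2 * w) 2 : ℤ) = padicValNat 2 w := by
    exact_mod_cast (by omega : vC (2 ^ m - 2 * w) 2 = padicValNat 2 w)
  have c2' : (vC (2 ^ m - (2 * w + 1)) 2 : ℤ) = padicValNat 2 (w + 1) := by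
    exact_mod_cast (by omega : vC (2 ^ m - (2 * w + 1)) 2 = padicValNat 2 (w + 1))
  have he' : (eta ε (2 ^ m) w 1 : ℤ) + 2 = padicValNat 2 w + padicValNat 2 (w + 1) +
      2 * (padicValNat 2 (3 * w + 1) + padicValNat 2 (3 * w + 2)) := by exact_mod_cast he
  rw [c1', c2'] at hm
  linarith

private theorem p6_base (ε : Bool) (m : ℕ) (h : 3 < 2 ^ m) :
    padicValRat 2 (PS ε ((2 ^ m : ℕ) : ℚ) 1) = 3 + (if ε then 1 else 0) := by
  obtain ⟨d, rfl⟩ : ∃ d, m = d + 1 := by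
    rcases m with _ | d
    · norm_num at h
    · exact ⟨d, rfl⟩
  have hp : (2 : ℕ) ^ (d + 1) = 2 * 2 ^ d := by rw [pow_succ]; ring
  have h1 : pv ((2 ^ (d + 1) : ℕ) : ℚ) 1 = -((2 * (2 ^ (d + 1) - 2) + 1 : ℕ) : ℚ) := by
    unfold pv
    rw [Finset.Ico_self, Finset.prod_empty, mul_one]
    push_cast [Nat.cast_sub (by omega : 2 ≤ 2 ^ (d + 1))]
    ring
  have hv1 : padicValRat 2 (-((2 * (2 ^ (d + 1) - 2) + 1 : ℕ) : ℚ)) = 0 := by
    rw [padicValRat.neg, padicValRat.of_nat, p6_odd]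
    rfl
  have n1 : (-((2 * (2 ^ (d + 1) - 2) + 1 : ℕ) : ℚ)) ≠ 0 := by
    rw [neg_ne_zero]
    exact_mod_cast (by omega : 2 * (2 ^ (d + 1) - 2) + 1 ≠ 0)
  unfold PS PP
  cases ε
  · simp only [Bool.false_eq_true, if_false]
    rw [h1, padicValRat.mul (zpow_ne_zero _ two_ne_zero) n1, padicValRat_two_zpow, hv1]
    norm_num
  · simp only [if_true]
    have e : pv ((2 ^ (d + 1) : ℕ) : ℚ) 1 * ((6 * ((1 : ℕ) : ℚ) - 2 * ((2 ^ (d + 1) : ℕ) : ℚ)) /
        (3 * ((1 : ℕ) : ℚ) - 2 * ((2 ^ (d + 1) : ℕ) : ℚ))) =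
        (2 : ℚ) ^ (1 : ℤ) * (-((2 * (2 ^ d - 2) + 1 : ℕ) : ℚ)) := by
      have h2 : (3 : ℚ) - 2 * ((2 ^ (d + 1) : ℕ) : ℚ) ≠ 0 := by
        have : (3 : ℚ) < ((2 ^ (d + 1) : ℕ) : ℚ) := by exact_mod_cast h
        apply ne_of_lt
        linarith
      have h3 : pv ((2 ^ (d + 1) : ℕ) : ℚ) 1 = 3 - 2 * ((2 ^ (d + 1) : ℕ) : ℚ) := by
        unfold pv
        rw [Finset.Ico_self, Finset.prod_empty, mul_one]
      rw [h3, Nat.cast_one, mul_one, mul_one, mul_div_assoc', mul_div_cancel_left₀ _ h2, zpow_one]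
      push_cast [Nat.cast_sub (by omega : 2 ≤ 2 ^ d)]
      ring
    have n2 : (-((2 * (2 ^ d - 2) + 1 : ℕ) : ℚ)) ≠ 0 := by
      rw [neg_ne_zero]
      exact_mod_cast (by omega : 2 * (2 ^ d - 2) + 1 ≠ 0)
    rw [e, padicValRat.mul (zpow_ne_zero _ two_ne_zero) (mul_ne_zero (zpow_ne_zero _ two_ne_zero) n2),
      padicValRat.mul (zpow_ne_zero _ two_ne_zero) n2, padicValRat_two_zpow, padicValRat_two_zpow,
      padicValRat.neg, padicValRat.of_nat, p6_odd]
    norm_num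

theorem slope_pow (ε : Bool) (m n : ℕ) (hn : 1 ≤ n) (h3 : 3 * n < 2 ^ m) :
    padicValRat 2 (PS ε ((2 ^ m : ℕ) : ℚ) n) + 2 * (vf n : ℤ) =
      1 + (if ε then 1 else 0) + 2 * (vf (3 * n) : ℤ) := by
  induction n, hn using Nat.le_induction with
  | base =>
    rw [p6_base ε m (by omega)]
    have f1 : vf 1 = 0 := by simp [vf]
    have f3 : vf (3 * 1) = 1 := p6_vf3
    rw [f1, f3]
    push_cast
    ring
  | succ w hw ih =>
    have ih := ih (by omega)
    have hs := p6_step ε m w hw h3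
    have v1 : vf (w + 1) = padicValNat 2 (w + 1) + vf w := by
      unfold vf
      rw [Nat.factorial_succ, padicValNat.mul (by omega) (Nat.factorial_ne_zero _)]
    have v3 : vf (3 * (w + 1)) = padicValNat 2 (w + 1) + (padicValNat 2 (3 * w + 2) +
        (padicValNat 2 (3 * w + 1) + vf (3 * w))) := by
      unfold vf
      have e : 3 * (w + 1) = (3 * w + 1 + 1) + 1 := by ring
      have e2 : 3 * w + 1 + 1 + 1 = 3 * (w + 1) := by ring
      rw [e, Nat.factorial_succ, Nat.factorial_succ, Nat.factorial_succ,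
        padicValNat.mul (by omega) (mul_ne_zero (by omega) (mul_ne_zero (by omega)
          (Nat.factorial_ne_zero _))),
        padicValNat.mul (by omega) (mul_ne_zero (by omega) (Nat.factorial_ne_zero _)),
        padicValNat.mul (by omega) (Nat.factorial_ne_zero _), e2, p6_three_mul _ (by omega)]
    rw [hs, v1, v3]
    push_cast at ih ⊢
    linarith

theorem slope_pow_succ (ε : Bool) (m n : ℕ) (hn : 1 ≤ n) (h3 : 3 * (n + 1) < 2 ^ m) :
    padicValRat 2 (PS ε ((2 ^ m : ℕ) : ℚ) n) + 2 ≤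
      padicValRat 2 (PS ε ((2 ^ m : ℕ) : ℚ) (n + 1)) := by
  rw [p6_step ε m n hn h3]
  have h1 : 1 ≤ padicValNat 2 (3 * n + 1) + padicValNat 2 (3 * n + 2) := by
    rcases Nat.even_or_odd n with he | ho
    · have h2 : 2 ∣ 3 * n + 2 := by
        obtain ⟨c, hc⟩ := he
        exact ⟨3 * c + 1, by omega⟩
      have := one_le_padicValNat_of_dvd (p := 2) (by omega : 3 * n + 2 ≠ 0) h2
      omega
    · have h2 : 2 ∣ 3 * n + 1 := by
        obtain ⟨c, hc⟩ := ho
        exact ⟨3 * c + 2, by omega⟩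
      have := one_le_padicValNat_of_dvd (p := 2) (by omega : 3 * n + 1 ≠ 0) h2
      omega
  have h2 : (1 : ℤ) ≤ ((padicValNat 2 (3 * n + 1) + padicValNat 2 (3 * n + 2) : ℕ) : ℤ) := by
    exact_mod_cast h1
  linarith

end Pool.Agent.Helper5.MD
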