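import Pool.Agent.Helper5.MD2.P2Lam
import Pool.Agent.Helper5.MD2.P3Mu
import Pool.Agent.Helper5.MD2.P4LamInv
import Pool.Agent.Helper5.MD2.P5MuInv
import Pool.Agent.Helper5.MD2.P6Piv
import Pool.Agent.Helper5.MD2.P7Crit

/-!
# MP-P8 : the criterion holds at every index for `κ = 2^m`

Verify the hypotheses of `crit_general`.  With `PP w = 2^(1-4w) PS w`, `s_w = v2 (PS w)` strictly increasing by steps `≥ 2` (`slope_pow_succ`):
* `hG`: `2^(1-2c-2d) UI c w (PP w)⁻¹ LI w d = (2^(2w-2c) UI c w) (PS w)⁻¹ (2^(2w-2d) LI w d)`, valuation `≥ -s_w ≥ -s_n` (diagonal entries `UI w w = LI w w = 1`).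
* `hX`: `2^(2i-2j) LL i w LI w j = (2^(2i-2w) LL i w) (2^(2w-2j) LI w j)`, valuation `≥ 1` as `w ≤ n < i`.
* `hY`: the same, `w ≤ n < j`.
* `hS`: `2^(2i+2j-1) LL i w PP w UU w j = (2^(2i-2w) LL i w) PS w (2^(2j-2w) UU w j)`, for `3 w < κ` valuation `≥ s_w ≥ s_(n+1) ≥ s_n + 2`; for `3 w > κ` the pivot is zero (`PP_eq_zero`).
-/

open scoped Nat

namespace Pool.Agent.Helper5.MD

private theorem p8_div_self (x : ℚ) : VG 0 (x / x) := by
  by_cases hx : x = 0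
  · left; simp [hx]
  · rw [div_self hx]
    simpa using VG_int 1

private theorem p8_LL_diag (ε : Bool) (K : ℚ) (w : ℕ) : VG 0 (LL ε K w w) := by
  have h : lam K w w = 1 := by simp [lam]
  unfold LL
  cases ε
  · simpa [h] using VG_int 1
  · simpa [h] using p8_div_self (K - 3 * w)

private theorem p8_UU_diag (ε : Bool) (K : ℚ) (w : ℕ) : VG 0 (UU ε K w w) := by
  have h : mu K w w = (2 * K - 3 * w) / (2 * K - 3 * w) := by simp [mu]
  unfold UU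
  cases ε
  · simpa [h] using p8_div_self (2 * K - 3 * w)
  · have := (p8_div_self (2 * K - 3 * w)).mul (p8_div_self (2 * K - 3 * w))
    simpa [h] using this

private theorem p8_LI_diag (ε : Bool) (K : ℚ) (w : ℕ) : VG 0 (LI ε K w w) := by
  have h : lamInv K w w = (K - w) * (K - 3 * w) / ((K - w) * (K - 3 * w)) := by simp [lamInv]
  unfold LI
  cases ε
  · simpa [h] using p8_div_self ((K - w) * (K - 3 * w))
  · have := (p8_div_self ((K - w) * (K - 3 * w))).mul (p8_div_self (K - 3 * w))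
    simpa [h] using this

private theorem p8_UI_diag (ε : Bool) (K : ℚ) (w : ℕ) : VG 0 (UI ε K w w) := by
  have h : muInv K w w = 1 := by simp [muInv]
  unfold UI
  cases ε
  · simpa [h] using VG_int 1
  · simpa [h] using p8_div_self (2 * K - 3 * w)

private theorem p8_LL (ε : Bool) (m i w : ℕ) (hw : 1 ≤ w) (hwi : w ≤ i) (h3 : 3 * w < 2 ^ m)
    (h2 : 2 * i < 2 ^ m) :
    VG 0 (2 ^ (2 * (i : ℤ) - 2 * w) * LL ε ((2 ^ m : ℕ) : ℚ) i w) := by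
  rcases hwi.lt_or_eq with h | h
  · exact (VG_LL_pow ε m i w hw h h3 h2).mono (by norm_num)
  · subst h
    simpa using p8_LL_diag ε ((2 ^ m : ℕ) : ℚ) w

private theorem p8_UU (ε : Bool) (m w j : ℕ) (hw : 1 ≤ w) (hwj : w ≤ j) (h3 : 3 * w < 2 ^ m)
    (h2 : 2 * j < 2 ^ m) :
    VG 0 (2 ^ (2 * (j : ℤ) - 2 * w) * UU ε ((2 ^ m : ℕ) : ℚ) w j) := by
  rcases hwj.lt_or_eq with h | h
  · exact (VG_UU_pow ε m w j hw h h3 h2).mono (by norm_num)
  · subst h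
    simpa using p8_UU_diag ε ((2 ^ m : ℕ) : ℚ) w

private theorem p8_LI (ε : Bool) (m i j : ℕ) (hj : 1 ≤ j) (hji : j ≤ i) (h3 : 3 * i < 2 ^ m) :
    VG 0 (2 ^ (2 * (i : ℤ) - 2 * j) * LI ε ((2 ^ m : ℕ) : ℚ) i j) := by
  rcases hji.lt_or_eq with h | h
  · exact (VG_LI_pow ε m i j hj h h3).mono (by norm_num)
  · subst h
    simpa using p8_LI_diag ε ((2 ^ m : ℕ) : ℚ) j

private theorem p8_UI (ε : Bool) (m j s : ℕ) (hj : 1 ≤ j) (hjs : j ≤ s) (h3 : 3 * s < 2 ^ m) :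
    VG 0 (2 ^ (2 * (s : ℤ) - 2 * j) * UI ε ((2 ^ m : ℕ) : ℚ) j s) := by
  rcases hjs.lt_or_eq with h | h
  · exact (VG_UI_pow ε m j s hj h h3).mono (by norm_num)
  · subst h
    simpa using p8_UI_diag ε ((2 ^ m : ℕ) : ℚ) j

private theorem p8_slope_mono (ε : Bool) (m w : ℕ) (hw : 1 ≤ w) :
    ∀ n : ℕ, w ≤ n → 3 * n < 2 ^ m →
      padicValRat 2 (PS ε ((2 ^ m : ℕ) : ℚ) w) + 2 * ((n : ℤ) - w) ≤
        padicValRat 2 (PS ε ((2 ^ m : ℕ) : ℚ) n) := by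
  intro n hn
  induction n, hn using Nat.le_induction with
  | base => intro _; simp
  | succ k hk ih =>
    intro h3
    have h1 := ih (by omega)
    have h2 := slope_pow_succ ε m k (by omega) h3
    have h4 : ((k + 1 : ℕ) : ℤ) = (k : ℤ) + 1 := by push_cast; ring
    rw [h4]
    linarith

theorem crit_pow (ε : Bool) (m n : ℕ) (hm : 10 ≤ m) (hn1 : 1 ≤ n) (h3 : 3 * n < 2 ^ m) :
    Crit (2 ^ m - 1) n (MAT ε (2 ^ m)) (padicValRat 2 (PS ε ((2 ^ m : ℕ) : ℚ) n) + 1) := by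
  have hκ : 800 ≤ 2 ^ m := by
    calc 800 ≤ 2 ^ 10 := by norm_num
      _ ≤ 2 ^ m := Nat.pow_le_pow_right (by norm_num) hm
  have hd : ¬ 3 ∣ 2 ^ m := by
    intro h
    have := Nat.Prime.dvd_of_dvd_pow Nat.prime_three h
    omega
  refine crit_general ε (2 ^ m) n hκ hd hn1 h3 ?_ ?_ ?_ ?_
  · -- hG
    intro c d hc hcn hd1 hdn
    rw [Finset.mul_sum]
    refine VG_sum _ _ _ ?_
    intro w hw
    rw [Finset.mem_Icc] at hw
    have hcw : c ≤ w := le_trans (le_max_left _ _) hw.1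
    have hdw : d ≤ w := le_trans (le_max_right _ _) hw.1
    have hw3 : 3 * w < 2 ^ m := by omega
    have e : (2 : ℚ) ^ (1 - 2 * (c : ℤ) - 2 * d) *
        (UI ε ((2 ^ m : ℕ) : ℚ) c w * (PP ε ((2 ^ m : ℕ) : ℚ) w)⁻¹ *
          LI ε ((2 ^ m : ℕ) : ℚ) w d) =
        (2 ^ (2 * (w : ℤ) - 2 * c) * UI ε ((2 ^ m : ℕ) : ℚ) c w) *
          (PS ε ((2 ^ m : ℕ) : ℚ) w)⁻¹ *
          (2 ^ (2 * (w : ℤ) - 2 * d) * LI ε ((2 ^ m : ℕ) : ℚ) w d) := by
      unfold PS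
      rw [mul_inv, ← zpow_neg]
      have h1 : (2 : ℚ) ^ (1 - 2 * (c : ℤ) - 2 * d) =
          2 ^ (2 * (w : ℤ) - 2 * c) * 2 ^ (-(4 * (w : ℤ) - 1)) * 2 ^ (2 * (w : ℤ) - 2 * d) := by
        rw [← zpow_add₀ (by norm_num : (2 : ℚ) ≠ 0), ← zpow_add₀ (by norm_num : (2 : ℚ) ≠ 0)]
        congr 1
        ring
      rw [h1]
      ring
    rw [e]
    have hi : VG (-padicValRat 2 (PS ε ((2 ^ m : ℕ) : ℚ) w)) (PS ε ((2 ^ m : ℕ) : ℚ) w)⁻¹ := by
      right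
      rw [padicValRat.inv]
    have hm' := p8_slope_mono ε m w (by omega) n hw.2 h3
    refine (((p8_UI ε m c w hc hcw hw3).mul hi).mul (p8_LI ε m w d hd1 hdw hw3)).mono ?_
    have : (w : ℤ) ≤ n := by exact_mod_cast hw.2
    linarith
  · -- hX
    intro i j hj hjn hni hi2
    rw [Finset.mul_sum]
    refine VG_sum _ _ _ ?_
    intro w hw
    rw [Finset.mem_Icc] at hw
    have hw3 : 3 * w < 2 ^ m := by omega
    have e : (2 : ℚ) ^ (2 * (i : ℤ) - 2 * j) *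
        (LL ε ((2 ^ m : ℕ) : ℚ) i w * LI ε ((2 ^ m : ℕ) : ℚ) w j) =
        (2 ^ (2 * (i : ℤ) - 2 * w) * LL ε ((2 ^ m : ℕ) : ℚ) i w) *
          (2 ^ (2 * (w : ℤ) - 2 * j) * LI ε ((2 ^ m : ℕ) : ℚ) w j) := by
      have h1 : (2 : ℚ) ^ (2 * (i : ℤ) - 2 * j) =
          2 ^ (2 * (i : ℤ) - 2 * w) * 2 ^ (2 * (w : ℤ) - 2 * j) := by
        rw [← zpow_add₀ (by norm_num : (2 : ℚ) ≠ 0)]
        congr 1
        ring
      rw [h1]
      ring
    rw [e]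
    have := (VG_LL_pow ε m i w (by omega) (by omega) hw3 hi2).mul (p8_LI ε m w j hj hw.1 hw3)
    simpa using this
  · -- hY
    intro i j hi hin hnj hj2
    rw [Finset.mul_sum]
    refine VG_sum _ _ _ ?_
    intro w hw
    rw [Finset.mem_Icc] at hw
    have hw3 : 3 * w < 2 ^ m := by omega
    have e : (2 : ℚ) ^ (2 * (j : ℤ) - 2 * i) *
        (UI ε ((2 ^ m : ℕ) : ℚ) i w * UU ε ((2 ^ m : ℕ) : ℚ) w j) =
        (2 ^ (2 * (w : ℤ) - 2 * i) * UI ε ((2 ^ m : ℕ) : ℚ) i w) *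
          (2 ^ (2 * (j : ℤ) - 2 * w) * UU ε ((2 ^ m : ℕ) : ℚ) w j) := by
      have h1 : (2 : ℚ) ^ (2 * (j : ℤ) - 2 * i) =
          2 ^ (2 * (w : ℤ) - 2 * i) * 2 ^ (2 * (j : ℤ) - 2 * w) := by
        rw [← zpow_add₀ (by norm_num : (2 : ℚ) ≠ 0)]
        congr 1
        ring
      rw [h1]
      ring
    rw [e]
    have := (p8_UI ε m i w hi hw.1 hw3).mul
      (p8_UU ε m w j (by omega) (by omega) hw3 hj2)
    simpa using this
  · -- hS
    intro i j hni hnj hi2 hj2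
    rw [Finset.mul_sum]
    refine VG_sum _ _ _ ?_
    intro w hw
    rw [Finset.mem_Icc] at hw
    have hwi : w ≤ i := le_trans hw.2 (min_le_left _ _)
    have hwj : w ≤ j := le_trans hw.2 (min_le_right _ _)
    rcases lt_trichotomy (3 * w) (2 ^ m) with hw3 | hw3 | hw3
    · have e : (2 : ℚ) ^ (2 * (i : ℤ) + 2 * j - 1) *
          (LL ε ((2 ^ m : ℕ) : ℚ) i w * PP ε ((2 ^ m : ℕ) : ℚ) w *
            UU ε ((2 ^ m : ℕ) : ℚ) w j) =
          (2 ^ (2 * (i : ℤ) - 2 * w) * LL ε ((2 ^ m : ℕ) : ℚ) i w) *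
            PS ε ((2 ^ m : ℕ) : ℚ) w *
            (2 ^ (2 * (j : ℤ) - 2 * w) * UU ε ((2 ^ m : ℕ) : ℚ) w j) := by
        unfold PS
        have h1 : (2 : ℚ) ^ (2 * (i : ℤ) + 2 * j - 1) =
            2 ^ (2 * (i : ℤ) - 2 * w) * 2 ^ (4 * (w : ℤ) - 1) * 2 ^ (2 * (j : ℤ) - 2 * w) := by
          rw [← zpow_add₀ (by norm_num : (2 : ℚ) ≠ 0), ← zpow_add₀ (by norm_num : (2 : ℚ) ≠ 0)]
          congr 1
          ring
        rw [h1]
        ring
      rw [e]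
      have hs : VG (padicValRat 2 (PS ε ((2 ^ m : ℕ) : ℚ) w)) (PS ε ((2 ^ m : ℕ) : ℚ) w) :=
        Or.inr le_rfl
      have hm' := p8_slope_mono ε m n hn1 w (by omega) hw3
      refine (((p8_LL ε m i w (by omega) hwi hw3 hi2).mul hs).mul
        (p8_UU ε m w j (by omega) hwj hw3 hj2)).mono ?_
      have : (n : ℤ) + 1 ≤ w := by exact_mod_cast hw.1
      linarith
    · exact absurd ⟨w, hw3.symm⟩ hd
    · rw [PP_eq_zero ε (2 ^ m) w hd hw3 (by omega)]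
      simpa using VG_zero _

end Pool.Agent.Helper5.MD
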